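import Pool.Agent.UC.Defs

/-! Basic lemmas: measurability of counts, invariant conull sets. -/

open MeasureTheory Filter Topology Set

namespace UC

namespace EG

variable {X : Type*} [MeasurableSpace X] (G : EG X)

theorem cnt_eq_sum (x : X) (p : X → Prop) :
    G.cnt x p = ∑ i ∈ Finset.range G.D, (open Classical in
      if i < G.dg x ∧ p (G.nb i x) then 1 else 0) := by
  classical
  unfold cnt
  rw [Finset.card_filter]
  rw [← Finset.sum_filter_add_sum_filter_not (Finset.range G.D) (fun i => i < G.dg x)]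
  have h1 : (Finset.range G.D).filter (fun i => i < G.dg x) = Finset.range (G.dg x) := by
    ext i
    simp only [Finset.mem_filter, Finset.mem_range]
    have := G.dg_le x
    constructor
    · exact fun h => h.2
    · exact fun h => ⟨by omega, h⟩
  rw [h1]
  have h2 : ∑ i ∈ (Finset.range G.D).filter (fun i => ¬ i < G.dg x),
      (if i < G.dg x ∧ p (G.nb i x) then 1 else 0) = 0 := by
    apply Finset.sum_eq_zero
    intro i hi
    simp only [Finset.mem_filter, Finset.mem_range] at hi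
    rw [if_neg]
    exact fun h => hi.2 h.1
  rw [h2, add_zero]
  apply Finset.sum_congr rfl
  intro i hi
  simp only [Finset.mem_range] at hi
  simp [hi]

theorem measurableSet_lt_dg (i : ℕ) : MeasurableSet {x | i < G.dg x} :=
  measurableSet_lt measurable_const G.dg_meas

theorem measurable_cnt (p : X → X → Prop) (hp : ∀ i, MeasurableSet {x | p x (G.nb i x)}) :
    Measurable (fun x => G.cnt x (p x)) := by
  classical
  have : (fun x => G.cnt x (p x)) = fun x => ∑ i ∈ Finset.range G.D,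
      if i < G.dg x ∧ p x (G.nb i x) then 1 else 0 := by
    funext x
    rw [cnt_eq_sum]
  rw [this]
  apply Finset.measurable_sum
  intro i _
  exact Measurable.ite ((G.measurableSet_lt_dg i).inter (hp i)) measurable_const measurable_const

theorem measurable_cnt_prop {α : Type*} [MeasurableSpace α] (g : α → X) (hg : Measurable g)
    (p : α → X → Prop) (hp : ∀ i, MeasurableSet {x | p x (G.nb i (g x))}) :
    Measurable (fun x => G.cnt (g x) (p x)) := by
  classical
  have : (fun x => G.cnt (g x) (p x)) = fun x => ∑ i ∈ Finset.range G.D,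
      if i < G.dg (g x) ∧ p x (G.nb i (g x)) then 1 else 0 := by
    funext x
    rw [cnt_eq_sum]
  rw [this]
  apply Finset.measurable_sum
  intro i _
  exact Measurable.ite ((hg (G.measurableSet_lt_dg i)).inter (hp i)) measurable_const
    measurable_const

theorem cnt_mono {x : X} {p q : X → Prop} (h : ∀ y, G.Adj x y → p y → q y) :
    G.cnt x p ≤ G.cnt x q := by
  classical
  unfold cnt
  apply Finset.card_le_card
  intro i hi
  simp only [Finset.mem_filter, Finset.mem_range] at hi ⊢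
  exact ⟨hi.1, h _ (G.adj_nb hi.1) hi.2⟩

theorem cnt_congr {x : X} {p q : X → Prop} (h : ∀ y, G.Adj x y → (p y ↔ q y)) :
    G.cnt x p = G.cnt x q :=
  le_antisymm (G.cnt_mono fun y hy => (h y hy).1) (G.cnt_mono fun y hy => (h y hy).2)

theorem cnt_le (x : X) (p : X → Prop) : G.cnt x p ≤ G.dg x := by
  classical
  unfold cnt
  exact (Finset.card_filter_le _ _).trans (by simp)

theorem cnt_true (x : X) {p : X → Prop} (h : ∀ y, G.Adj x y → p y) : G.cnt x p = G.dg x := by
  classical
  unfold cnt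
  rw [Finset.filter_true_of_mem]
  · simp
  · intro i hi
    exact h _ (G.adj_nb (Finset.mem_range.1 hi))

theorem cnt_add_not (x : X) (p : X → Prop) : G.cnt x p + G.cnt x (fun y => ¬ p y) = G.dg x := by
  classical
  unfold cnt
  rw [Finset.card_filter_add_card_filter_not]
  simp

theorem cnt_or_disj (x : X) (p q : X → Prop) (h : ∀ y, G.Adj x y → p y → ¬ q y) :
    G.cnt x (fun y => p y ∨ q y) = G.cnt x p + G.cnt x q := by
  classical
  unfold cnt
  rw [← Finset.card_union_of_disjoint]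
  · congr 1
    ext i
    simp only [Finset.mem_filter, Finset.mem_union]
    tauto
  rw [Finset.disjoint_filter]
  intro i hi hp hq
  exact h _ (G.adj_nb (Finset.mem_range.1 hi)) hp hq

theorem cnt_pos {x y : X} {p : X → Prop} (h : G.Adj x y) (hp : p y) : 1 ≤ G.cnt x p := by
  classical
  obtain ⟨i, hi, rfl⟩ := h
  unfold cnt
  rw [Nat.one_le_iff_ne_zero, ← Nat.pos_iff_ne_zero, Finset.card_pos]
  exact ⟨i, by simp [hi, hp]⟩

theorem cnt_two {x y z : X} {p : X → Prop} (hy : G.Adj x y) (hz : G.Adj x z) (hyz : y ≠ z)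
    (hpy : p y) (hpz : p z) : 2 ≤ G.cnt x p := by
  classical
  obtain ⟨i, hi, rfl⟩ := hy
  obtain ⟨j, hj, rfl⟩ := hz
  unfold cnt
  have hij : i ≠ j := fun h => hyz (by rw [h])
  have : ({i, j} : Finset ℕ) ⊆ (Finset.range (G.dg x)).filter (fun i => p (G.nb i x)) := by
    intro k hk
    simp only [Finset.mem_insert, Finset.mem_singleton] at hk
    rcases hk with rfl | rfl <;> simp [*]
  calc 2 = ({i, j} : Finset ℕ).card := by rw [Finset.card_pair hij]
    _ ≤ _ := Finset.card_le_card this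

theorem exists_of_cnt_pos {x : X} {p : X → Prop} (h : 1 ≤ G.cnt x p) :
    ∃ y, G.Adj x y ∧ p y := by
  classical
  unfold cnt at h
  obtain ⟨i, hi⟩ := Finset.card_pos.1 (lt_of_lt_of_le Nat.zero_lt_one h)
  simp only [Finset.mem_filter, Finset.mem_range] at hi
  exact ⟨_, G.adj_nb hi.1, hi.2⟩

/-- three distinct neighbours satisfying `p` -/
theorem exists_three {x : X} {p : X → Prop} (h : 3 ≤ G.cnt x p) :
    ∃ y₁ y₂ y₃, G.Adj x y₁ ∧ G.Adj x y₂ ∧ G.Adj x y₃ ∧ p y₁ ∧ p y₂ ∧ p y₃ ∧
      y₁ ≠ y₂ ∧ y₁ ≠ y₃ ∧ y₂ ≠ y₃ := by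
  classical
  unfold cnt at h
  obtain ⟨a, b, c, ha, hb, hc, hab, hac, hbc⟩ :=
    Finset.two_lt_card_iff.1 (lt_of_lt_of_le (show 2 < 3 by norm_num) h)
  simp only [Finset.mem_filter, Finset.mem_range] at ha hb hc
  exact ⟨_, _, _, G.adj_nb ha.1, G.adj_nb hb.1, G.adj_nb hc.1, ha.2, hb.2, hc.2,
    fun e => hab (G.inj x a b ha.1 hb.1 e), fun e => hac (G.inj x a c ha.1 hc.1 e),
    fun e => hbc (G.inj x b c hb.1 hc.1 e)⟩

/-- Every conull set contains a conull measurable invariant set. -/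
theorem exists_invariant {μ : Measure X} (hqi : G.QI μ) {P : X → Prop} (hP : ∀ᵐ x ∂μ, P x) :
    ∃ I : Set X, MeasurableSet I ∧ (∀ᵐ x ∂μ, x ∈ I) ∧ (∀ x ∈ I, P x) ∧
      ∀ x ∈ I, ∀ y, G.Adj x y → y ∈ I := by
  classical
  obtain ⟨N, hN, hNm, hN0⟩ := exists_measurable_superset_of_null (ae_iff.1 hP)
  -- B k : points at distance at most k from N
  let S : ℕ → Set X := fun k => Nat.rec N (fun _ A => A ∪ ⋃ i : ℕ, ({x | i < G.dg x} ∩ G.nb i ⁻¹' A)) k
  have hS0 : S 0 = N := rfl
  have hSs : ∀ k, S (k + 1) = S k ∪ ⋃ i : ℕ, ({x | i < G.dg x} ∩ G.nb i ⁻¹' (S k)) := fun k => rfl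
  have hSm : ∀ k, MeasurableSet (S k) := by
    intro k
    induction k with
    | zero => exact hNm
    | succ k ih =>
      rw [hSs]
      exact ih.union (MeasurableSet.iUnion fun i => (G.measurableSet_lt_dg i).inter (G.nb_meas i ih))
  have hSn : ∀ k, μ (S k) = 0 := by
    intro k
    induction k with
    | zero => exact hN0
    | succ k ih =>
      rw [hSs]
      refine measure_union_null ih ?_
      refine measure_mono_null ?_ (hqi (S k) ih)
      intro x hx
      obtain ⟨i, hi, hx⟩ := mem_iUnion.1 hx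
      exact ⟨_, hx, G.adj_nb hi⟩
  refine ⟨(⋃ k, S k)ᶜ, (MeasurableSet.iUnion hSm).compl, ?_, ?_, ?_⟩
  · have : μ (⋃ k, S k) = 0 := measure_iUnion_null hSn
    rw [ae_iff]
    have e : {a | ¬ a ∈ (⋃ k, S k)ᶜ} = ⋃ k, S k := by
      ext a
      simp only [mem_ofPred_eq, mem_compl_iff, not_not]
    rw [e]
    exact this
  · intro x hx
    by_contra hPx
    exact hx (mem_iUnion.2 ⟨0, hN hPx⟩)
  · intro x hx y hxy hy
    apply hx
    obtain ⟨k, hk⟩ := mem_iUnion.1 hy
    obtain ⟨i, hi, rfl⟩ := hxy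
    refine mem_iUnion.2 ⟨k + 1, ?_⟩
    rw [hSs]
    exact Or.inr (mem_iUnion.2 ⟨i, hi, hk⟩)

end EG

end UC
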