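import Pool.Agent.UC.Stmts

open MeasureTheory Filter Topology Set

namespace UC

/-- countable proper measurable colouring -/
theorem col_aux {X : Type*} [MeasurableSpace X] [StandardBorelSpace X] (G : EG X) :
    ∃ κ : X → ℕ, Measurable κ ∧ ∀ x y, G.Adj x y → κ x ≠ κ y := by
  classical
  obtain ⟨e, he⟩ := MeasureTheory.exists_measurableEmbedding_real X
  obtain ⟨I, hI⟩ := exists_surjective_nat (ℚ × ℚ)
  let J : ℕ → Set ℝ := fun k => Set.Ioo ((I k).1 : ℝ) ((I k).2 : ℝ)
  have hJm : ∀ k, MeasurableSet (J k) := fun k => measurableSet_Ioo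
  have hex : ∀ x, ∃ k, e x ∈ J k ∧ ∀ i, i < G.dg x → e (G.nb i x) ∉ J k := by
    intro x
    have hfin : ((fun i => e (G.nb i x)) '' {i | i < G.dg x}).Finite :=
      (Set.finite_lt_nat _).image _
    have hx : e x ∉ ((fun i => e (G.nb i x)) '' {i | i < G.dg x}) := by
      rintro ⟨i, hi, h⟩
      exact G.irr x i hi (he.injective h)
    have hopen : IsOpen ((fun i => e (G.nb i x)) '' {i | i < G.dg x})ᶜ :=
      hfin.isClosed.isOpen_compl
    obtain ⟨ε, hε, hball⟩ := Metric.isOpen_iff.1 hopen (e x) hx
    obtain ⟨a, ha1, ha2⟩ := exists_rat_btwn (show e x - ε < e x by linarith)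
    obtain ⟨b, hb1, hb2⟩ := exists_rat_btwn (show e x < e x + ε by linarith)
    obtain ⟨k, hk⟩ := hI (a, b)
    refine ⟨k, ?_, ?_⟩
    · simp only [J, hk]
      exact ⟨ha2, hb1⟩
    · intro i hi h
      simp only [J, hk] at h
      have : e (G.nb i x) ∈ Metric.ball (e x) ε := by
        rw [Real.ball_eq_Ioo]
        exact ⟨by linarith [h.1], by linarith [h.2]⟩
      exact hball this ⟨i, hi, rfl⟩
  refine ⟨fun x => Nat.find (hex x), ?_, ?_⟩
  · refine measurable_find hex fun k => ?_
    have : {x | e x ∈ J k ∧ ∀ i, i < G.dg x → e (G.nb i x) ∉ J k}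
        = (e ⁻¹' (J k)) ∩ ⋂ i, ({x | G.dg x ≤ i} ∪ ((fun x => e (G.nb i x)) ⁻¹' (J k))ᶜ) := by
      ext x
      simp only [Set.mem_ofPred_eq, Set.mem_inter_iff, Set.mem_preimage, Set.mem_iInter,
        Set.mem_union, Set.mem_compl_iff]
      constructor
      · rintro ⟨h1, h2⟩
        refine ⟨h1, fun i => ?_⟩
        by_cases hi : i < G.dg x
        · exact Or.inr (h2 i hi)
        · exact Or.inl (by omega)
      · rintro ⟨h1, h2⟩
        refine ⟨h1, fun i hi => ?_⟩
        rcases h2 i with h | h
        · omega
        · exact h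
    rw [this]
    refine (he.measurable (hJm k)).inter (MeasurableSet.iInter fun i => ?_)
    refine (measurableSet_le G.dg_meas measurable_const).union ?_
    exact ((he.measurable.comp (G.nb_meas i)) (hJm k)).compl
  · intro x y hxy h
    have hx := Nat.find_spec (hex x)
    have hy := Nat.find_spec (hex y)
    simp only at h
    rw [← h] at hy
    obtain ⟨i, hi, rfl⟩ := hxy
    exact hx.2 i hi hy.1

theorem col (X : Type*) [MeasurableSpace X] [StandardBorelSpace X] : UC.Stmt_Col X := by
  intro G
  classical
  obtain ⟨κ, hκ, hprop⟩ := col_aux G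
  -- least free colour
  have hfree : ∀ (n : ℕ) (g : X → ℕ) (x : X), ∃ j, ∀ i, i < G.dg x → κ (G.nb i x) < n →
      g (G.nb i x) ≠ j := by
    intro n g x
    obtain ⟨j, hj⟩ := Infinite.exists_notMem_finset ((Finset.range (G.dg x)).image
      (fun i => g (G.nb i x)))
    refine ⟨j, fun i hi _ h => hj ?_⟩
    rw [Finset.mem_image]
    exact ⟨i, Finset.mem_range.2 hi, h⟩
  have hfree' : ∀ (n : ℕ) (g : X → ℕ) (x : X), @Nat.find _ (fun _ => Classical.propDecidable _) (hfree n g x) < G.D + 1 := by
    intro n g x
    have : ∃ j ∈ Finset.range (G.D + 1), j ∉ (Finset.range (G.dg x)).image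
        (fun i => g (G.nb i x)) := by
      by_contra hcon
      push Not at hcon
      have h1 : Finset.range (G.D + 1) ⊆ (Finset.range (G.dg x)).image
        (fun i => g (G.nb i x)) := hcon
      have h2 := Finset.card_le_card h1
      have h3 := Finset.card_image_le (s := Finset.range (G.dg x)) (f := fun i => g (G.nb i x))
      rw [Finset.card_range] at h2 h3
      have := G.dg_le x
      omega
    obtain ⟨j, hj, hj'⟩ := this
    refine lt_of_le_of_lt (@Nat.find_min' _ (fun _ => Classical.propDecidable _) (hfree n g x) j ?_) (Finset.mem_range.1 hj)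
    intro i hi _ h
    apply hj'
    rw [Finset.mem_image]
    exact ⟨i, Finset.mem_range.2 hi, h⟩
  let fr : ℕ → (X → ℕ) → X → ℕ := fun n g x =>
    @Nat.find _ (fun _ => Classical.propDecidable _) (hfree n g x)
  have hfrspec : ∀ n g x, ∀ i, i < G.dg x → κ (G.nb i x) < n → g (G.nb i x) ≠ fr n g x :=
    fun n g x => @Nat.find_spec _ (fun _ => Classical.propDecidable _) (hfree n g x)
  let g : ℕ → X → ℕ := fun n => Nat.rec (fun _ => 0)
    (fun n gn x => if κ x = n then fr n gn x else gn x) n
  have hg0 : g 0 = fun _ => 0 := rfl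
  have hgs : ∀ n : ℕ, g (n + 1) = fun x => if κ x = n then fr n (g n) x else g n x :=
    fun n => rfl
  have hgm : ∀ n, Measurable (g n) := by
    intro n
    induction n with
    | zero => rw [hg0]; exact measurable_const
    | succ n ih =>
      rw [hgs]
      refine Measurable.ite (measurableSet_eq_fun hκ measurable_const) ?_ ih
      have hfrm : ∀ k, MeasurableSet {x | ∀ i, i < G.dg x → κ (G.nb i x) < n →
          g n (G.nb i x) ≠ k} := ?_
      · exact @measurable_find X _ (fun x k => ∀ i, i < G.dg x → κ (G.nb i x) < n →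
          g n (G.nb i x) ≠ k) (fun x k => Classical.propDecidable _) (hfree n (g n)) hfrm
      intro k
      have : {x | ∀ i, i < G.dg x → κ (G.nb i x) < n → g n (G.nb i x) ≠ k}
          = ⋂ i, ({x | G.dg x ≤ i} ∪ ({x | n ≤ κ (G.nb i x)} ∪ {x | g n (G.nb i x) = k}ᶜ)) := by
        ext x
        simp only [Set.mem_ofPred_eq, Set.mem_iInter, Set.mem_union, Set.mem_compl_iff]
        constructor
        · intro h i
          by_cases hi : i < G.dg x
          · right
            by_cases hk : κ (G.nb i x) < n
            · exact Or.inr (h i hi hk)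
            · exact Or.inl (by omega)
          · exact Or.inl (by omega)
        · intro h i hi hk
          rcases h i with h | h | h
          · omega
          · omega
          · exact h
      rw [this]
      refine MeasurableSet.iInter fun i => ?_
      refine (measurableSet_le G.dg_meas measurable_const).union ?_
      refine (measurableSet_le measurable_const (hκ.comp (G.nb_meas i))).union ?_
      exact (measurableSet_eq_fun (ih.comp (G.nb_meas i)) measurable_const).compl
  have hgstab : ∀ m x, κ x < m → g m x = g (κ x + 1) x := by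
    intro m x hm
    induction m, hm using Nat.le_induction with
    | base => rfl
    | succ m hm ih =>
      rw [hgs]
      have : κ x ≠ m := by omega
      simp only [this, if_false]
      exact ih
  let c : X → ℕ := fun x => g (κ x + 1) x
  have hc : ∀ x, c x = fr (κ x) (g (κ x)) x := by
    intro x
    simp only [c]
    rw [hgs]
    simp
  refine ⟨G.D + 1, c, ?_, ?_, ?_⟩
  · apply measurable_to_countable'
    intro j
    have : c ⁻¹' {j} = ⋃ n, ({x | κ x = n} ∩ {x | g (n + 1) x = j}) := by
      ext x
      simp only [c, Set.mem_preimage, Set.mem_singleton_iff, Set.mem_iUnion, Set.mem_inter_iff,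
        Set.mem_ofPred_eq]
      constructor
      · intro h
        exact ⟨κ x, rfl, h⟩
      · rintro ⟨n, rfl, h⟩
        exact h
    rw [this]
    refine MeasurableSet.iUnion fun n => ?_
    exact (measurableSet_eq_fun hκ measurable_const).inter
      (measurableSet_eq_fun (hgm (n + 1)) measurable_const)
  · intro x
    rw [hc]
    exact hfree' _ _ _
  · have key : ∀ x y, G.Adj x y → κ y < κ x → c x ≠ c y := by
      intro x y hxy hlt
      obtain ⟨i, hi, rfl⟩ := hxy
      have h1 := hfrspec (κ x) (g (κ x)) x i hi hlt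
      rw [← hc x, hgstab _ _ hlt] at h1
      exact fun h => h1 h.symm
    intro x y hxy
    rcases lt_or_gt_of_ne (hprop x y hxy) with h | h
    · exact (key y x (G.adj_symm hxy) h).symm
    · exact key x y hxy h

end UC
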