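import Pool.Agent.UC.Stmts

/-!
# Module Cvx: convex combinations of tails converge almost everywhere
-/

open MeasureTheory Filter Topology Set

namespace UC

section hilbert

variable {E : Type*} [NormedAddCommGroup E] [InnerProductSpace ℝ E]

/-- convex weights supported on `[n, ∞)` -/
def CW (n : ℕ) : Set (ℕ →₀ ℝ) :=
  {l | (∀ t, 0 ≤ l t) ∧ (∀ t, t < n → l t = 0) ∧
    Finsupp.linearCombination ℝ (fun _ : ℕ => (1 : ℝ)) l = 1}

theorem CW_single (n : ℕ) : Finsupp.single n (1 : ℝ) ∈ CW n := by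
  refine ⟨fun t => ?_, fun t ht => ?_, ?_⟩
  · rw [Finsupp.single_apply]; split_ifs <;> norm_num
  · rw [Finsupp.single_apply, if_neg (by omega)]
  · rw [Finsupp.linearCombination_single]; simp

theorem CW_anti {m n : ℕ} (h : n ≤ m) : CW m ⊆ CW n := by
  rintro l ⟨h1, h2, h3⟩
  exact ⟨h1, fun t ht => h2 t (by omega), h3⟩

theorem CW_half {n : ℕ} {l l' : ℕ →₀ ℝ} (h : l ∈ CW n) (h' : l' ∈ CW n) :
    (1 / 2 : ℝ) • (l + l') ∈ CW n := by
  obtain ⟨a1, a2, a3⟩ := h
  obtain ⟨b1, b2, b3⟩ := h'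
  refine ⟨fun t => ?_, fun t ht => ?_, ?_⟩
  · rw [Finsupp.smul_apply, Finsupp.add_apply, smul_eq_mul]
    have := a1 t; have := b1 t; positivity
  · rw [Finsupp.smul_apply, Finsupp.add_apply, a2 t ht, b2 t ht]; simp
  · rw [map_smul, map_add, a3, b3]; norm_num

/-- Convex combinations of tails of a bounded sequence in a Hilbert space form a Cauchy
sequence. -/
theorem exists_cauchy (U : ℕ → E) (R : ℝ) (hR : ∀ t, ‖U t‖ ≤ R) :
    ∃ lam : ℕ → ℕ →₀ ℝ, (∀ n, lam n ∈ CW n) ∧
      CauchySeq (fun n => Finsupp.linearCombination ℝ U (lam n)) := by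
  set L := Finsupp.linearCombination ℝ U with hL
  set A : ℕ → Set ℝ := fun n => (fun l => ‖L l‖) '' CW n with hA
  set d : ℕ → ℝ := fun n => sInf (A n) with hd
  have hbdd : ∀ n, BddBelow (A n) := by
    intro n
    refine ⟨0, ?_⟩
    rintro _ ⟨l, _, rfl⟩
    exact norm_nonneg _
  have hne : ∀ n, (A n).Nonempty := fun n => ⟨_, _, CW_single n, rfl⟩
  have hd0 : ∀ n, 0 ≤ d n := by
    intro n
    apply le_csInf (hne n)
    rintro _ ⟨l, _, rfl⟩
    exact norm_nonneg _
  have hle : ∀ n l, l ∈ CW n → d n ≤ ‖L l‖ := fun n l hl => csInf_le (hbdd n) ⟨l, hl, rfl⟩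
  have hdR : ∀ n, d n ≤ R := by
    intro n
    refine (hle n _ (CW_single n)).trans ?_
    rw [hL, Finsupp.linearCombination_single, one_smul]
    exact hR n
  have hmono : Monotone d := by
    intro n m hnm
    apply csInf_le_csInf (hbdd n) (hne m)
    rintro _ ⟨l, hl, rfl⟩
    exact ⟨l, CW_anti hnm hl, rfl⟩
  have hlim := tendsto_atTop_ciSup hmono ⟨R, by rintro _ ⟨n, rfl⟩; exact hdR n⟩
  set D := ⨆ n, d n with hD
  have hdD : ∀ n, d n ≤ D := fun n =>
    le_ciSup (f := d) ⟨R, by rintro _ ⟨n, rfl⟩; exact hdR n⟩ n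
  have hD0 : 0 ≤ D := (hd0 0).trans (hdD 0)
  have hex : ∀ n : ℕ, ∃ l ∈ CW n, ‖L l‖ < d n + 1 / ((n : ℝ) + 1) := by
    intro n
    have hpos : (0 : ℝ) < 1 / ((n : ℝ) + 1) := by positivity
    obtain ⟨_, ⟨l, hl, rfl⟩, h⟩ := exists_lt_of_csInf_lt (hne n)
      (show sInf (A n) < d n + 1 / ((n : ℝ) + 1) by
        have : sInf (A n) = d n := rfl
        linarith)
    exact ⟨l, hl, h⟩
  choose lam hlam hlt using hex
  refine ⟨lam, hlam, ?_⟩
  set b : ℕ → ℝ := fun N => Real.sqrt (4 * (D + 1 / ((N : ℝ) + 1)) ^ 2 - 4 * (d N) ^ 2) with hb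
  apply cauchySeq_of_le_tendsto_0 b
  · intro n m N hn hm
    have hN : ∀ k, N ≤ k → ‖L (lam k)‖ ≤ D + 1 / ((N : ℝ) + 1) := by
      intro k hk
      have h1 := (hlt k).le
      have h2 := hdD k
      have h3 : 1 / ((k : ℝ) + 1) ≤ 1 / ((N : ℝ) + 1) := by
        apply one_div_le_one_div_of_le (by positivity)
        have : (N : ℝ) ≤ k := by exact_mod_cast hk
        linarith
      linarith
    have hhalf := hle N _ (CW_half (CW_anti hn (hlam n)) (CW_anti hm (hlam m)))
    rw [map_smul, map_add, norm_smul, Real.norm_eq_abs, abs_of_pos (by norm_num : (0:ℝ) < 1 / 2)]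
      at hhalf
    have hpar := parallelogram_law_with_norm ℝ (L (lam n)) (L (lam m))
    rw [dist_eq_norm]
    apply Real.le_sqrt_of_sq_le
    have h1 := hN n hn
    have h2 := hN m hm
    have h3 : ‖L (lam n)‖ ^ 2 ≤ (D + 1 / ((N : ℝ) + 1)) ^ 2 :=
      pow_le_pow_left₀ (norm_nonneg _) h1 2
    have h4 : ‖L (lam m)‖ ^ 2 ≤ (D + 1 / ((N : ℝ) + 1)) ^ 2 :=
      pow_le_pow_left₀ (norm_nonneg _) h2 2
    have h5 : (2 * d N) ^ 2 ≤ ‖L (lam n) + L (lam m)‖ ^ 2 := by
      apply pow_le_pow_left₀ (by have := hd0 N; positivity)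
      linarith
    nlinarith
  · have h1 : Tendsto (fun N : ℕ => 4 * (D + 1 / ((N : ℝ) + 1)) ^ 2 - 4 * (d N) ^ 2) atTop
        (𝓝 (4 * (D + 0) ^ 2 - 4 * D ^ 2)) := by
      apply Tendsto.sub
      · exact ((tendsto_const_nhds.add tendsto_one_div_add_atTop_nhds_zero_nat).pow 2).const_mul 4
      · exact (hlim.pow 2).const_mul 4
    have h2 := (Real.continuous_sqrt.tendsto _).comp h1
    have h3 : Real.sqrt (4 * (D + 0) ^ 2 - 4 * D ^ 2) = 0 := by
      rw [add_zero, sub_self, Real.sqrt_zero]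
    rw [h3] at h2
    exact h2

end hilbert

theorem cvx (Ω : Type*) [MeasurableSpace Ω] : Stmt_Cvx Ω := by
  intro ν _ D u hu hbd
  -- the vector-valued functions
  set V : ℕ → Ω → EuclideanSpace ℝ (Fin D) := fun t ω => WithLp.toLp 2 (fun i => u t i ω) with hV
  have hVm : ∀ t, Measurable (V t) := by
    intro t
    exact (MeasurableEquiv.toLp 2 (Fin D → ℝ)).measurable.comp
      (measurable_pi_lambda _ (fun i => hu t i))
  have hVb : ∀ t ω, ‖V t ω‖ ≤ Real.sqrt D := by
    intro t ω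
    rw [EuclideanSpace.norm_eq]
    apply Real.sqrt_le_sqrt
    calc ∑ i, ‖(V t ω) i‖ ^ 2 ≤ ∑ _i : Fin D, (1 : ℝ) := by
          apply Finset.sum_le_sum
          intro i _
          have : ‖(V t ω) i‖ ≤ 1 := hbd t i ω
          have h0 := norm_nonneg ((V t ω) i)
          nlinarith
      _ = D := by simp
  have hVL : ∀ t, MemLp (V t) 2 ν := fun t =>
    MemLp.of_bound (hVm t).aestronglyMeasurable (Real.sqrt D) (Eventually.of_forall (hVb t))
  set U : ℕ → Lp (EuclideanSpace ℝ (Fin D)) 2 ν := fun t => (hVL t).toLp (V t) with hU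
  have hUb : ∃ R, ∀ t, ‖U t‖ ≤ R := by
    refine ⟨_, fun t => Lp.norm_le_of_ae_bound (f := U t) (C := Real.sqrt D) (Real.sqrt_nonneg _) ?_⟩
    filter_upwards [(hVL t).coeFn_toLp] with ω hω
    rw [hU]; simp only; rw [hω]; exact hVb t ω
  obtain ⟨R, hR⟩ := hUb
  obtain ⟨lam, hlam, hcau⟩ := exists_cauchy U R hR
  obtain ⟨g, hg⟩ := cauchySeq_tendsto_of_complete hcau
  have hmeas := tendstoInMeasure_of_tendsto_Lp hg
  obtain ⟨ns, hns, hae⟩ := hmeas.exists_seq_tendsto_ae
  -- the linear combinations, pointwise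
  have hpt : ∀ l : ℕ →₀ ℝ, ∀ᵐ ω ∂ν,
      (Finsupp.linearCombination ℝ U l : Lp (EuclideanSpace ℝ (Fin D)) 2 ν) ω
      = Finsupp.linearCombination ℝ (fun t => V t ω) l := by
    intro l
    induction l using Finsupp.induction_linear with
    | zero =>
        rw [map_zero]
        filter_upwards [Lp.coeFn_zero (EuclideanSpace ℝ (Fin D)) 2 ν] with ω hω
        rw [hω, map_zero]; rfl
    | add l l' h1 h2 =>
        rw [map_add]
        filter_upwards [h1, h2, Lp.coeFn_add (Finsupp.linearCombination ℝ U l)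
          (Finsupp.linearCombination ℝ U l')] with ω h1 h2 h3
        rw [h3, map_add, Pi.add_apply, h1, h2]
    | single t a =>
        rw [Finsupp.linearCombination_single]
        filter_upwards [Lp.coeFn_smul a (U t), (hVL t).coeFn_toLp] with ω h1 h2
        rw [h1, Finsupp.linearCombination_single, Pi.smul_apply]
        congr 1
  have hall : ∀ᵐ ω ∂ν, ∀ n : ℕ,
      (Finsupp.linearCombination ℝ U (lam (ns n)) : Lp (EuclideanSpace ℝ (Fin D)) 2 ν) ω
      = Finsupp.linearCombination ℝ (fun t => V t ω) (lam (ns n)) :=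
    ae_all_iff.mpr (fun n => hpt _)
  refine ⟨fun n => lam (ns n), fun n t => (hlam _).1 t, ?_, ?_, ?_⟩
  · intro n t ht
    exact (hlam (ns n)).2.1 t (lt_of_lt_of_le ht (hns.id_le n))
  · intro n
    have := (hlam (ns n)).2.2
    rw [Finsupp.linearCombination_apply] at this
    simpa using this
  · filter_upwards [hae, hall] with ω h1 h2
    intro i hi
    refine ⟨(g : Ω → EuclideanSpace ℝ (Fin D)) ω ⟨i, hi⟩, ?_⟩
    have h3 : Tendsto (fun n => Finsupp.linearCombination ℝ (fun t => V t ω) (lam (ns n))) atTop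
        (𝓝 ((g : Ω → EuclideanSpace ℝ (Fin D)) ω)) := by
      refine Tendsto.congr (fun n => h2 n) h1
    have h4 := ((EuclideanSpace.proj (𝕜 := ℝ) (⟨i, hi⟩ : Fin D)).continuous.tendsto _).comp h3
    refine Tendsto.congr (fun n => ?_) h4
    simp only [Function.comp_apply]
    rw [Finsupp.linearCombination_apply, Finsupp.sum, map_sum, Finsupp.sum]
    apply Finset.sum_congr rfl
    intro t _
    rw [map_smul]
    rfl

end UC
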