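import Mathlib

/-!
# Unfriendly colourings of measured graphs: basic definitions

`EG X` : a bounded degree measurable graph together with a measurable enumeration of the
neighbours.  `Str G H f` : the one-ended structures used in the proof.
-/

open MeasureTheory Filter Topology Set

namespace UC

/-- An enumerated measurable graph of bounded degree: `nb i x`, `i < dg x`, are the distinct
neighbours of `x`. -/
structure EG (X : Type*) [MeasurableSpace X] where
  D : ℕ
  dg : X → ℕ
  nb : ℕ → X → X
  dg_le : ∀ x, dg x ≤ D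
  dg_meas : Measurable dg
  nb_meas : ∀ i, Measurable (nb i)
  irr : ∀ x i, i < dg x → nb i x ≠ x
  inj : ∀ x i j, i < dg x → j < dg x → nb i x = nb j x → i = j
  symm : ∀ x i, i < dg x → ∃ j, j < dg (nb i x) ∧ nb j (nb i x) = x

namespace EG

variable {X : Type*} [MeasurableSpace X] (G : EG X)

/-- adjacency -/
def Adj (x y : X) : Prop := ∃ i, i < G.dg x ∧ G.nb i x = y

theorem adj_nb {x : X} {i : ℕ} (h : i < G.dg x) : G.Adj x (G.nb i x) := ⟨i, h, rfl⟩

theorem adj_symm {x y : X} (h : G.Adj x y) : G.Adj y x := by
  obtain ⟨i, hi, rfl⟩ := h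
  exact G.symm x i hi

theorem adj_comm {x y : X} : G.Adj x y ↔ G.Adj y x := ⟨G.adj_symm, G.adj_symm⟩

theorem adj_irrefl {x y : X} (h : G.Adj x y) : y ≠ x := by
  obtain ⟨i, hi, rfl⟩ := h
  exact G.irr x i hi

/-- The number of neighbours `y` of `x` with `p y`. -/
noncomputable def cnt (x : X) (p : X → Prop) : ℕ :=
  open Classical in ((Finset.range (G.dg x)).filter (fun i => p (G.nb i x))).card

/-- One-step quasi-invariance: the set of neighbours of a null set is null. -/
def QI (μ : Measure X) : Prop := ∀ N : Set X, μ N = 0 → μ {x | ∃ y ∈ N, G.Adj x y} = 0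

/-- The structures: on `H` every vertex has degree at least three, all neighbours but one
(the parent `f x`) are in `H` and are children. -/
structure Str (H : Set X) (f : X → X) : Prop where
  deg : ∀ x ∈ H, 3 ≤ G.dg x
  par : ∀ x ∈ H, G.Adj x (f x)
  child : ∀ x ∈ H, ∀ z, G.Adj x z → z ≠ f x → z ∈ H ∧ f z = x
  noback : ∀ x ∈ H, f x ∈ H → f (f x) ≠ x

end EG

end UC
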