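import Pool.Agent.UC.Basic

/-! The flip dynamics relative to a structure `H`, and the flow inequalities. -/

open MeasureTheory Filter Topology Set

namespace UC

/-- the number of opposite neighbours we require -/
def rr (d : ℕ) : ℕ := min ((d + 1) / 2) 2

variable {X : Type*} [MeasurableSpace X] (G : EG X) (H : Set X) (κ : X → ℕ) (q : ℕ)

/-- `x` is violating for the colouring `c`. -/
def viol (c : X → Bool) (x : X) : Prop :=
  x ∉ H ∧ G.cnt x (fun y => y ∈ H ∨ c y ≠ c x) < rr (G.dg x)

open Classical in
/-- the colouring at time `t` -/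
noncomputable def cst : ℕ → X → Bool
  | 0 => fun _ => false
  | t + 1 => fun x => if viol G H (cst t) x ∧ κ x = t % q then !(cst t x) else cst t x

/-- `x` is flipped at time `t` -/
def flp (t : ℕ) (x : X) : Prop := viol G H (cst G H κ q t) x ∧ κ x = t % q

open Classical in
/-- number of flips -/
noncomputable def FF : ℕ → X → ℕ
  | 0 => fun _ => 0
  | t + 1 => fun x => FF t x + if flp G H κ q t x then 1 else 0

open Classical in
/-- energy imported by `x` along `xy` -/
noncomputable def ee : ℕ → X → X → ℤ
  | 0 => fun _ _ => 0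
  | t + 1 => fun x y => ee t x y +
      if flp G H κ q t x then (if cst G H κ q t x = cst G H κ q t y then 1 else -1) else 0

variable {G H κ q}

open Classical in
theorem cst_succ (t : ℕ) (x : X) : cst G H κ q (t + 1) x =
    if flp G H κ q t x then !(cst G H κ q t x) else cst G H κ q t x := by
  conv_lhs => rw [cst]
  by_cases hf : flp G H κ q t x
  · rw [if_pos hf]
    exact if_pos hf
  · rw [if_neg hf]
    exact if_neg hf

open Classical in
theorem FF_succ (t : ℕ) (x : X) : FF G H κ q (t + 1) x =
    FF G H κ q t x + if flp G H κ q t x then 1 else 0 := by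
  conv_lhs => rw [FF]

open Classical in
theorem ee_succ (t : ℕ) (x y : X) : ee G H κ q (t + 1) x y = ee G H κ q t x y +
      if flp G H κ q t x then (if cst G H κ q t x = cst G H κ q t y then 1 else -1) else 0 := by
  conv_lhs => rw [ee]

theorem FF_mono (x : X) : Monotone (fun t => FF G H κ q t x) := by
  apply monotone_nat_of_le_succ
  intro t
  rw [FF_succ]
  exact Nat.le_add_right _ _

theorem ee_abs (t : ℕ) (x y : X) : |ee G H κ q t x y| ≤ (FF G H κ q t x : ℤ) := by
  classical
  induction t with
  | zero => simp [ee, FF]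
  | succ t ih =>
    rw [ee_succ, FF_succ]
    by_cases hf : flp G H κ q t x
    · rw [if_pos hf, if_pos hf]
      split_ifs <;> (rw [abs_le] at ih ⊢; push_cast; constructor <;> omega)
    · rw [if_neg hf, if_neg hf]
      simpa using ih

theorem ee_add (hκ : ∀ x y, G.Adj x y → κ x ≠ κ y) (t : ℕ) {x y : X} (hxy : G.Adj x y) :
    ee G H κ q t x y + ee G H κ q t y x =
      if cst G H κ q t x ≠ cst G H κ q t y then 1 else 0 := by
  classical
  induction t with
  | zero => simp [ee, cst]
  | succ t ih =>
    rw [ee_succ, ee_succ, cst_succ, cst_succ]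
    have hnot : ¬ (flp G H κ q t x ∧ flp G H κ q t y) := by
      rintro ⟨h1, h2⟩
      exact hκ x y hxy (h1.2.trans h2.2.symm)
    by_cases hx : flp G H κ q t x
    · have hy : ¬ flp G H κ q t y := fun h => hnot ⟨hx, h⟩
      rw [if_pos hx, if_neg hy, if_pos hx, if_neg hy]
      cases h1 : cst G H κ q t x <;> cases h2 : cst G H κ q t y <;>
        simp only [h1, h2] at ih ⊢ <;> simp at ih ⊢ <;> omega
    · by_cases hy : flp G H κ q t y
      · rw [if_neg hx, if_pos hy, if_neg hx, if_pos hy]
        cases h1 : cst G H κ q t x <;> cases h2 : cst G H κ q t y <;>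
          simp only [h1, h2] at ih ⊢ <;> simp at ih ⊢ <;> omega
      · rw [if_neg hx, if_neg hy, if_neg hx, if_neg hy]
        simpa using ih

/-- increments -/
theorem flp_two {t : ℕ} {x y z : X} (hf : flp G H κ q t x) (hy : G.Adj x y) (hz : G.Adj x z)
    (hyz : y ≠ z) (h1 : cst G H κ q t x ≠ cst G H κ q t y)
    (h2 : cst G H κ q t x ≠ cst G H κ q t z) : False := by
  have h := hf.1.2
  have h2 : 2 ≤ G.cnt x (fun y => y ∈ H ∨ cst G H κ q t y ≠ cst G H κ q t x) :=
    G.cnt_two hy hz hyz (Or.inr (Ne.symm h1)) (Or.inr (Ne.symm h2))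
  unfold rr at h
  omega

theorem ee_pair (t : ℕ) {x y z : X} (hy : G.Adj x y) (hz : G.Adj x z) (hyz : y ≠ z) :
    0 ≤ ee G H κ q t x y + ee G H κ q t x z := by
  classical
  induction t with
  | zero => simp [ee]
  | succ t ih =>
    rw [ee_succ, ee_succ]
    by_cases hf : flp G H κ q t x
    · rw [if_pos hf, if_pos hf]
      by_cases h1 : cst G H κ q t x = cst G H κ q t y
      · rw [if_pos h1]
        split_ifs <;> omega
      · by_cases h2 : cst G H κ q t x = cst G H κ q t z
        · rw [if_pos h2, if_neg h1]
          omega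
        · exact (flp_two hf hy hz hyz h1 h2).elim
    · rw [if_neg hf, if_neg hf]
      omega

theorem ee_triple (t : ℕ) {x y z w : X} (hy : G.Adj x y) (hz : G.Adj x z) (hw : G.Adj x w)
    (hyz : y ≠ z) (hyw : y ≠ w) (hzw : z ≠ w) :
    (FF G H κ q t x : ℤ) ≤ ee G H κ q t x y + ee G H κ q t x z + ee G H κ q t x w := by
  classical
  induction t with
  | zero => simp [ee, FF]
  | succ t ih =>
    rw [ee_succ, ee_succ, ee_succ, FF_succ]
    by_cases hf : flp G H κ q t x
    · rw [if_pos hf, if_pos hf, if_pos hf, if_pos hf]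
      push_cast
      by_cases h1 : cst G H κ q t x = cst G H κ q t y
      · by_cases h2 : cst G H κ q t x = cst G H κ q t z
        · rw [if_pos h1, if_pos h2]
          split_ifs <;> omega
        · by_cases h3 : cst G H κ q t x = cst G H κ q t w
          · rw [if_pos h1, if_neg h2, if_pos h3]
            omega
          · exact (flp_two hf hz hw hzw h2 h3).elim
      · by_cases h2 : cst G H κ q t x = cst G H κ q t z
        · by_cases h3 : cst G H κ q t x = cst G H κ q t w
          · rw [if_neg h1, if_pos h2, if_pos h3]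
            omega
          · exact (flp_two hf hy hw hyw h1 h3).elim
        · exact (flp_two hf hy hz hyz h1 h2).elim
    · rw [if_neg hf, if_neg hf, if_neg hf, if_neg hf]
      push_cast
      omega

theorem ee_few (t : ℕ) {x y : X} (hy : G.Adj x y) (hyH : y ∉ H)
    (hd : G.cnt x (fun y => y ∉ H) ≤ 2) :
    ee G H κ q t x y = (FF G H κ q t x : ℤ) := by
  classical
  induction t with
  | zero => simp [ee, FF]
  | succ t ih =>
    rw [ee_succ, FF_succ]
    by_cases hf : flp G H κ q t x
    · rw [if_pos hf, if_pos hf]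
      by_cases h1 : cst G H κ q t x = cst G H κ q t y
      · rw [if_pos h1, ih]
        push_cast
        omega
      · exfalso
        have h := hf.1.2
        -- split the count: all H-neighbours are counted
        have hc : G.cnt x (fun z => z ∈ H) + 1 ≤
            G.cnt x (fun z => z ∈ H ∨ cst G H κ q t z ≠ cst G H κ q t x) := by
          have h3 : G.cnt x (fun z => z ∈ H ∨ (z ∉ H ∧ cst G H κ q t z ≠ cst G H κ q t x)) =
              G.cnt x (fun z => z ∈ H) +
                G.cnt x (fun z => z ∉ H ∧ cst G H κ q t z ≠ cst G H κ q t x) :=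
            G.cnt_or_disj x _ _ (fun z _ h1 h2 => h2.1 h1)
          have h4 : 1 ≤ G.cnt x (fun z => z ∉ H ∧ cst G H κ q t z ≠ cst G H κ q t x) :=
            G.cnt_pos hy ⟨hyH, Ne.symm h1⟩
          have h5 : G.cnt x (fun z => z ∈ H ∨ (z ∉ H ∧ cst G H κ q t z ≠ cst G H κ q t x)) ≤
              G.cnt x (fun z => z ∈ H ∨ cst G H κ q t z ≠ cst G H κ q t x) :=
            G.cnt_mono (fun z _ hz => hz.imp id fun h => h.2)
          omega
        have h6 := G.cnt_add_not x (fun z => z ∈ H)
        unfold rr at h
        have h7 : min ((G.dg x + 1) / 2) 2 ≤ 2 := min_le_right _ _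
        have h8 : min ((G.dg x + 1) / 2) 2 ≤ (G.dg x + 1) / 2 := min_le_left _ _
        omega
    · rw [if_neg hf, if_neg hf, ih]
      simp

end UC
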