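import Pool.Agent.UC.Dyn

/-! Measurability of the flip dynamics. -/

open MeasureTheory Filter Topology Set

namespace UC

variable {X : Type*} [MeasurableSpace X] {G : EG X} {H : Set X} {κ : X → ℕ} {q : ℕ}

theorem meas_viol (hH : MeasurableSet H) {c : X → Bool} (hc : Measurable c) :
    MeasurableSet {x | viol G H c x} := by
  have h1 : Measurable (fun x => G.cnt x (fun y => y ∈ H ∨ c y ≠ c x)) := by
    apply G.measurable_cnt (fun x y => y ∈ H ∨ c y ≠ c x)
    intro i
    exact ((G.nb_meas i) hH).union (measurableSet_eq_fun (hc.comp (G.nb_meas i)) hc).compl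
  have h2 : Measurable (fun x => rr (G.dg x)) := (measurable_from_top (f := rr)).comp G.dg_meas
  exact hH.compl.inter (measurableSet_lt h1 h2)

theorem meas_flp_of (hH : MeasurableSet H) (hκ : Measurable κ) (t : ℕ)
    (hc : Measurable (cst G H κ q t)) : MeasurableSet {x | flp G H κ q t x} :=
  (meas_viol hH hc).inter (measurableSet_eq_fun hκ measurable_const)

theorem meas_cst (hH : MeasurableSet H) (hκ : Measurable κ) (t : ℕ) :
    Measurable (cst G H κ q t) := by
  classical
  induction t with
  | zero => exact measurable_const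
  | succ t ih =>
    have : cst G H κ q (t + 1) = fun x =>
        if flp G H κ q t x then !(cst G H κ q t x) else cst G H κ q t x := by
      funext x
      rw [cst_succ]
    rw [this]
    exact Measurable.ite (meas_flp_of hH hκ t ih)
      ((measurable_from_top (f := fun b : Bool => !b)).comp ih) ih

theorem meas_flp (hH : MeasurableSet H) (hκ : Measurable κ) (t : ℕ) :
    MeasurableSet {x | flp G H κ q t x} := meas_flp_of hH hκ t (meas_cst hH hκ t)

theorem meas_FF (hH : MeasurableSet H) (hκ : Measurable κ) (t : ℕ) :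
    Measurable (FF G H κ q t) := by
  classical
  induction t with
  | zero => exact measurable_const
  | succ t ih =>
    have : FF G H κ q (t + 1) = fun x => FF G H κ q t x + if flp G H κ q t x then 1 else 0 := by
      funext x
      rw [FF_succ]
    rw [this]
    exact ih.add (Measurable.ite (meas_flp hH hκ t) measurable_const measurable_const)

theorem meas_ee (hH : MeasurableSet H) (hκ : Measurable κ) (t : ℕ) :
    Measurable (fun p : X × X => ee G H κ q t p.1 p.2) := by
  classical
  induction t with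
  | zero => exact measurable_const
  | succ t ih =>
    have : (fun p : X × X => ee G H κ q (t + 1) p.1 p.2) = fun p => ee G H κ q t p.1 p.2 +
        if flp G H κ q t p.1 then
          (if cst G H κ q t p.1 = cst G H κ q t p.2 then 1 else -1) else 0 := by
      funext p
      rw [ee_succ]
    rw [this]
    refine ih.add (Measurable.ite (measurable_fst (meas_flp hH hκ t)) ?_ measurable_const)
    refine Measurable.ite ?_ measurable_const measurable_const
    exact measurableSet_eq_fun ((meas_cst hH hκ t).comp measurable_fst)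
      ((meas_cst hH hκ t).comp measurable_snd)

/-- If `x` flips finitely often then its colour is eventually constant. -/
theorem cst_eventually {x : X} (h : ¬ Tendsto (fun t => FF G H κ q t x) atTop atTop) :
    ∃ T : ℕ, (∀ t, T ≤ t → ¬ flp G H κ q t x) ∧
      ∀ t, T ≤ t → cst G H κ q t x = cst G H κ q T x := by
  classical
  have h1 : ∃ B, ∀ t, FF G H κ q t x ≤ B := by
    by_contra hB
    push Not at hB
    apply h
    refine tendsto_atTop_atTop.2 fun b => ?_
    obtain ⟨t, ht⟩ := hB b
    exact ⟨t, fun s hs => ht.le.trans (FF_mono x hs)⟩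
  obtain ⟨B, hB⟩ := h1
  -- maximum value attained
  obtain ⟨T, hT⟩ : ∃ T, ∀ t, FF G H κ q t x ≤ FF G H κ q T x := by
    have hfin : (Set.range fun t => FF G H κ q t x).Finite :=
      (Set.finite_le_nat B).subset (by rintro _ ⟨t, rfl⟩; exact hB t)
    obtain ⟨_, ⟨T, rfl⟩, hT⟩ := Set.exists_max_image _ id hfin ⟨_, ⟨0, rfl⟩⟩
    exact ⟨T, fun t => hT _ ⟨t, rfl⟩⟩
  have hnf : ∀ t, T ≤ t → ¬ flp G H κ q t x := by
    intro t ht hf
    have h2 := hT (t + 1)
    rw [FF_succ, if_pos hf] at h2
    have h3 : FF G H κ q T x ≤ FF G H κ q t x := FF_mono x ht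
    omega
  refine ⟨T, hnf, ?_⟩
  intro t ht
  induction t, ht using Nat.le_induction with
  | base => rfl
  | succ t ht ih =>
    rw [cst_succ, if_neg (hnf t ht)]
    exact ih

/-- the limit colouring -/
def cinf (G : EG X) (H : Set X) (κ : X → ℕ) (q : ℕ) (x : X) : Prop :=
  ∃ T : ℕ, ∀ t, T ≤ t → cst G H κ q t x = true

theorem meas_cinf (hH : MeasurableSet H) (hκ : Measurable κ) :
    MeasurableSet {x | cinf G H κ q x} := by
  have : {x | cinf G H κ q x} = ⋃ T : ℕ, ⋂ t : ℕ, {x | T ≤ t → cst G H κ q t x = true} := by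
    ext x
    simp only [cinf, mem_ofPred_eq, mem_iUnion, mem_iInter]
  rw [this]
  refine MeasurableSet.iUnion fun T => MeasurableSet.iInter fun t => ?_
  by_cases h : T ≤ t
  · have : {x | T ≤ t → cst G H κ q t x = true} = {x | cst G H κ q t x = true} := by
      ext x; simp [h]
    rw [this]
    exact measurableSet_eq_fun (meas_cst hH hκ t) measurable_const
  · have : {x | T ≤ t → cst G H κ q t x = true} = univ := by
      ext x; simp [h]
    rw [this]
    exact MeasurableSet.univ

theorem cinf_iff {x : X} {T : ℕ} (h : ∀ t, T ≤ t → cst G H κ q t x = cst G H κ q T x) :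
    cinf G H κ q x ↔ cst G H κ q T x = true := by
  constructor
  · rintro ⟨T', hT'⟩
    rw [← h (max T T') (le_max_left _ _)]
    exact hT' _ (le_max_right _ _)
  · intro h'
    exact ⟨T, fun t ht => (h t ht).trans h'⟩

/-- the limit colouring is good at `x ∉ H` if `x` and its neighbours flip finitely often -/
theorem cinf_good (hq : ∀ x, κ x < q) {x : X} (hx : x ∉ H)
    (h : ¬ Tendsto (fun t => FF G H κ q t x) atTop atTop)
    (hn : ∀ y, G.Adj x y → ¬ Tendsto (fun t => FF G H κ q t y) atTop atTop) :
    rr (G.dg x) ≤ G.cnt x (fun y => y ∈ H ∨ (y ∉ H ∧ ¬ (cinf G H κ q y ↔ cinf G H κ q x))) := by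
  classical
  obtain ⟨T₀, hT₀, hT₀'⟩ := cst_eventually h
  have hn' : ∀ i, ∃ T, i < G.dg x → ∀ t, T ≤ t →
      cst G H κ q t (G.nb i x) = cst G H κ q T (G.nb i x) := by
    intro i
    by_cases hi : i < G.dg x
    · obtain ⟨T, _, hT⟩ := cst_eventually (hn _ (G.adj_nb hi))
      exact ⟨T, fun _ => hT⟩
    · exact ⟨0, fun h => absurd h hi⟩
  choose T hT using hn'
  -- a late time with the right residue
  let M := T₀ + ∑ i ∈ Finset.range (G.dg x), T i
  let s := q * M + κ x
  have hq0 : 0 < q := (Nat.zero_le _).trans_lt (hq x)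
  have hs : s % q = κ x := by
    show (q * M + κ x) % q = κ x
    rw [Nat.mul_add_mod, Nat.mod_eq_of_lt (hq x)]
  have hsM : M ≤ s := by
    show M ≤ q * M + κ x
    have : M ≤ q * M := Nat.le_mul_of_pos_left M hq0
    omega
  have hTi : ∀ i, i < G.dg x → T i ≤ M := by
    intro i hi
    have : T i ≤ ∑ i ∈ Finset.range (G.dg x), T i :=
      Finset.single_le_sum (f := T) (fun _ _ => Nat.zero_le _) (Finset.mem_range.2 hi)
    show T i ≤ T₀ + ∑ i ∈ Finset.range (G.dg x), T i
    omega
  have hTM : T₀ ≤ M := Nat.le_add_right _ _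
  have hnf := hT₀ s (hTM.trans hsM)
  have hv : ¬ viol G H (cst G H κ q s) x := fun hv => hnf ⟨hv, hs.symm⟩
  have hv' : rr (G.dg x) ≤ G.cnt x (fun y => y ∈ H ∨ cst G H κ q s y ≠ cst G H κ q s x) := by
    by_contra hlt
    exact hv ⟨hx, not_le.1 hlt⟩
  refine hv'.trans (G.cnt_mono ?_)
  intro y hy hyy
  by_cases hyH : y ∈ H
  · exact Or.inl hyH
  · refine Or.inr ⟨hyH, ?_⟩
    rcases hyy with h' | h'
    · exact absurd h' hyH
    obtain ⟨i, hi, rfl⟩ := hy
    have e1 : cinf G H κ q (G.nb i x) ↔ cst G H κ q s (G.nb i x) = true := by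
      rw [cinf_iff (hT i hi), hT i hi s ((hTi i hi).trans hsM)]
    have e2 : cinf G H κ q x ↔ cst G H κ q s x = true := by
      rw [cinf_iff hT₀', hT₀' s (hTM.trans hsM)]
    rw [e1, e2]
    intro hiff
    apply h'
    exact Bool.eq_iff_iff.2 hiff

end UC
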