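import Pool.Agent.UC.DynMeas

/-! The normalised flow and its inequalities; convex combinations of tails. -/

open MeasureTheory Filter Topology Set

namespace UC

/-- truncation to `[0,1]` -/
noncomputable def clip (r : ℝ) : ℝ := max 0 (min 1 r)

theorem clip_nonneg (r : ℝ) : 0 ≤ clip r := le_max_left _ _

theorem clip_le_one (r : ℝ) : clip r ≤ 1 := max_le zero_le_one (min_le_left _ _)

theorem clip_of_nonpos {r : ℝ} (h : r ≤ 0) : clip r = 0 :=
  max_eq_left ((min_le_right _ _).trans h)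

theorem clip_le_self {r : ℝ} (h : 0 ≤ r) : clip r ≤ r := max_le h (min_le_right _ _)

theorem clip_of_one_le {r : ℝ} (h : 1 ≤ r) : clip r = 1 := by
  unfold clip
  rw [min_eq_left h]
  exact max_eq_right zero_le_one

theorem clip_self {r : ℝ} (h0 : 0 ≤ r) (h1 : r ≤ 1) : clip r = r := by
  unfold clip
  rw [min_eq_right h1, max_eq_right h0]

theorem continuous_clip : Continuous clip := by
  unfold clip
  fun_prop

theorem clip_add_clip (r : ℝ) : clip (1 / 2 + r) + clip (1 / 2 - r) = 1 := by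
  rcases le_total r (-(1 / 2)) with h | h
  · rw [clip_of_nonpos (show 1 / 2 + r ≤ 0 by linarith),
      clip_of_one_le (show 1 ≤ 1 / 2 - r by linarith)]
    norm_num
  · rcases le_total r (1 / 2) with h' | h'
    · rw [clip_self (show 0 ≤ 1 / 2 + r by linarith) (by linarith),
        clip_self (show 0 ≤ 1 / 2 - r by linarith) (by linarith)]
      ring
    · rw [clip_of_one_le (show 1 ≤ 1 / 2 + r by linarith),
        clip_of_nonpos (show 1 / 2 - r ≤ 0 by linarith)]
      norm_num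

theorem clip_two {u v C : ℝ} (h : u + v ≤ C) (hC : 1 ≤ C) : clip u + clip v ≤ C := by
  rcases le_total u 0 with hu | hu
  · rw [clip_of_nonpos hu]
    have := clip_le_one v
    linarith
  · rcases le_total v 0 with hv | hv
    · rw [clip_of_nonpos hv]
      have := clip_le_one u
      linarith
    · have h1 := clip_le_self hu
      have h2 := clip_le_self hv
      linarith

theorem clip_three {u v w C : ℝ} (h1 : u + v ≤ C) (h2 : u + w ≤ C) (h3 : v + w ≤ C)
    (h4 : u + v + w ≤ 0) (hC : 1 ≤ C) : clip u + clip v + clip w ≤ C := by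
  rcases le_total u 0 with hu | hu
  · rw [clip_of_nonpos hu, zero_add]
    exact clip_two h3 hC
  · rcases le_total v 0 with hv | hv
    · rw [clip_of_nonpos hv, add_zero]
      exact clip_two h2 hC
    · rw [clip_of_nonpos (show w ≤ 0 by linarith), add_zero]
      exact clip_two h1 hC

variable {X : Type*} [MeasurableSpace X]

/-- normalised export of `x` along `xy` -/
noncomputable def mm (G : EG X) (H : Set X) (κ : X → ℕ) (q : ℕ) (L : ℕ → ℝ) (t : ℕ) (x y : X) :
    ℝ :=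
  clip (1 / 2 + (((ee G H κ q t y x : ℤ) : ℝ) - ((ee G H κ q t x y : ℤ) : ℝ)) / (2 * L t))

variable {G : EG X} {H : Set X} {κ : X → ℕ} {q : ℕ} {L : ℕ → ℝ}

theorem mm_nonneg (t : ℕ) (x y : X) : 0 ≤ mm G H κ q L t x y := clip_nonneg _

theorem mm_le_one (t : ℕ) (x y : X) : mm G H κ q L t x y ≤ 1 := clip_le_one _

theorem mm_abs (t : ℕ) (x y : X) : |mm G H κ q L t x y| ≤ 1 := by
  rw [abs_of_nonneg (mm_nonneg t x y)]
  exact mm_le_one t x y

theorem mm_add (t : ℕ) (x y : X) : mm G H κ q L t x y + mm G H κ q L t y x = 1 := by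
  unfold mm
  have h := clip_add_clip
    ((((ee G H κ q t y x : ℤ) : ℝ) - ((ee G H κ q t x y : ℤ) : ℝ)) / (2 * L t))
  have e : (1 / 2 : ℝ) + (((ee G H κ q t x y : ℤ) : ℝ) - ((ee G H κ q t y x : ℤ) : ℝ)) / (2 * L t)
      = 1 / 2 - (((ee G H κ q t y x : ℤ) : ℝ) - ((ee G H κ q t x y : ℤ) : ℝ)) / (2 * L t) := by
    ring
  rw [e]
  exact h

/-- the argument of the clip in terms of the import `a` -/
theorem mm_arg (hκ : ∀ x y, G.Adj x y → κ x ≠ κ y) (t : ℕ) {x y : X} (hxy : G.Adj x y) :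
    ∃ s : ℝ, 0 ≤ s ∧ s ≤ 1 ∧
      ((ee G H κ q t y x : ℤ) : ℝ) = s - ((ee G H κ q t x y : ℤ) : ℝ) := by
  classical
  have h := ee_add (H := H) (q := q) hκ t hxy
  have h' : ((ee G H κ q t x y : ℤ) : ℝ) + ((ee G H κ q t y x : ℤ) : ℝ) =
      (((if cst G H κ q t x ≠ cst G H κ q t y then 1 else 0 : ℤ)) : ℝ) := by
    rw [← h]
    push_cast
    rfl
  by_cases hc : cst G H κ q t x ≠ cst G H κ q t y
  · rw [if_pos hc] at h'
    exact ⟨1, by norm_num, le_refl _, by push_cast at h'; linarith⟩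
  · rw [if_neg hc] at h'
    exact ⟨0, le_refl _, by norm_num, by push_cast at h'; linarith⟩

theorem mm_triple (hκ : ∀ x y, G.Adj x y → κ x ≠ κ y) (hL : ∀ t, 1 ≤ L t) (t : ℕ) {x y z w : X}
    (hy : G.Adj x y) (hz : G.Adj x z) (hw : G.Adj x w)
    (hyz : y ≠ z) (hyw : y ≠ w) (hzw : z ≠ w) (hF : 3 ≤ (FF G H κ q t x : ℝ) / L t) :
    mm G H κ q L t x y + mm G H κ q L t x z + mm G H κ q L t x w ≤ 1 + 1 / L t := by
  obtain ⟨s₁, hs₁, hs₁', e₁⟩ := mm_arg (H := H) (q := q) hκ t hy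
  obtain ⟨s₂, hs₂, hs₂', e₂⟩ := mm_arg (H := H) (q := q) hκ t hz
  obtain ⟨s₃, hs₃, hs₃', e₃⟩ := mm_arg (H := H) (q := q) hκ t hw
  have p1 : (0 : ℝ) ≤ (ee G H κ q t x y : ℤ) + (ee G H κ q t x z : ℤ) := by
    exact_mod_cast ee_pair (G := G) (H := H) (κ := κ) (q := q) t hy hz hyz
  have p2 : (0 : ℝ) ≤ (ee G H κ q t x y : ℤ) + (ee G H κ q t x w : ℤ) := by
    exact_mod_cast ee_pair (G := G) (H := H) (κ := κ) (q := q) t hy hw hyw
  have p3 : (0 : ℝ) ≤ (ee G H κ q t x z : ℤ) + (ee G H κ q t x w : ℤ) := by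
    exact_mod_cast ee_pair (G := G) (H := H) (κ := κ) (q := q) t hz hw hzw
  have p4 : (FF G H κ q t x : ℝ) ≤
      (ee G H κ q t x y : ℤ) + (ee G H κ q t x z : ℤ) + (ee G H κ q t x w : ℤ) := by
    exact_mod_cast ee_triple (G := G) (H := H) (κ := κ) (q := q) t hy hz hw hyz hyw hzw
  have hL0 : 0 < L t := lt_of_lt_of_le one_pos (hL t)
  rw [le_div_iff₀ hL0] at hF
  have hLt := hL t
  have hL2 : 0 < 2 * L t := by linarith
  unfold mm
  rw [e₁, e₂, e₃]
  generalize ((ee G H κ q t x y : ℤ) : ℝ) = a at *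
  generalize ((ee G H κ q t x z : ℤ) : ℝ) = b at *
  generalize ((ee G H κ q t x w : ℤ) : ℝ) = c at *
  generalize L t = l at *
  have hone : 1 / l = 2 / (2 * l) := by field_simp
  have key : ∀ r s : ℝ, r ≤ s → r / (2 * l) ≤ s / (2 * l) := fun r s h =>
    div_le_div_of_nonneg_right h hL2.le
  apply clip_three
  · rw [hone]
    have h1 := key ((s₁ - a - a) + (s₂ - b - b)) 2 (by linarith)
    rw [add_div] at h1
    linarith
  · rw [hone]
    have h1 := key ((s₁ - a - a) + (s₃ - c - c)) 2 (by linarith)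
    rw [add_div] at h1
    linarith
  · rw [hone]
    have h1 := key ((s₂ - b - b) + (s₃ - c - c)) 2 (by linarith)
    rw [add_div] at h1
    linarith
  · have h1 := key ((s₁ - a - a) + (s₂ - b - b) + (s₃ - c - c)) (-3 * l) (by nlinarith)
    rw [add_div, add_div] at h1
    have h2 : -3 * l / (2 * l) = -(3 / 2) := by
      field_simp
    rw [h2] at h1
    linarith
  · have : 0 ≤ 1 / l := by positivity
    linarith

theorem mm_few (hκ : ∀ x y, G.Adj x y → κ x ≠ κ y) (hL : ∀ t, 1 ≤ L t) (t : ℕ) {x y : X}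
    (hy : G.Adj x y) (hyH : y ∉ H) (hd : G.cnt x (fun y => y ∉ H) ≤ 2)
    (hF : 3 ≤ (FF G H κ q t x : ℝ) / L t) : mm G H κ q L t x y = 0 := by
  obtain ⟨s₁, hs₁, hs₁', e₁⟩ := mm_arg (H := H) (q := q) hκ t hy
  have p : ((ee G H κ q t x y : ℤ) : ℝ) = (FF G H κ q t x : ℝ) := by
    exact_mod_cast ee_few (G := G) (H := H) (κ := κ) (q := q) t hy hyH hd
  have hL0 : 0 < L t := lt_of_lt_of_le one_pos (hL t)
  rw [le_div_iff₀ hL0] at hF
  have hLt := hL t
  have hL2 : 0 < 2 * L t := by linarith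
  unfold mm
  rw [e₁, p]
  apply clip_of_nonpos
  have h1 : (s₁ - (FF G H κ q t x : ℝ) - (FF G H κ q t x : ℝ)) / (2 * L t) ≤
      (-1 * L t) / (2 * L t) := by
    apply div_le_div_of_nonneg_right _ hL2.le
    nlinarith
  have h2 : -1 * L t / (2 * L t) = -(1 / 2) := by
    field_simp
  rw [h2] at h1
  linarith

theorem mm_out (hκ : ∀ x y, G.Adj x y → κ x ≠ κ y) (hL : ∀ t, 1 ≤ L t)
    (hL' : Tendsto L atTop atTop) {x y : X} (hy : G.Adj x y)
    (h : ¬ Tendsto (fun t => FF G H κ q t y) atTop atTop) :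
    Tendsto (fun t => mm G H κ q L t x y) atTop (𝓝 (1 / 2)) := by
  classical
  have h1 : ∃ B, ∀ t, FF G H κ q t y ≤ B := by
    by_contra hB
    push Not at hB
    apply h
    refine tendsto_atTop_atTop.2 fun b => ?_
    obtain ⟨t, ht⟩ := hB b
    exact ⟨t, fun s hs => ht.le.trans (FF_mono y hs)⟩
  obtain ⟨B, hB⟩ := h1
  have h2 : Tendsto (fun t => (((ee G H κ q t y x : ℤ) : ℝ) - ((ee G H κ q t x y : ℤ) : ℝ)) /
      (2 * L t)) atTop (𝓝 0) := by
    apply squeeze_zero_norm (a := fun t => (2 * (B : ℝ) + 1) / (2 * L t))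
    · intro t
      have hL0 : 0 < L t := lt_of_lt_of_le one_pos (hL t)
      have hL2 : 0 < 2 * L t := by linarith
      rw [Real.norm_eq_abs, abs_div, abs_of_pos hL2]
      apply div_le_div_of_nonneg_right _ hL2.le
      obtain ⟨s₁, hs₁, hs₁', e₁⟩ := mm_arg (H := H) (q := q) hκ t hy
      have h3 : |((ee G H κ q t y x : ℤ) : ℝ)| ≤ (B : ℝ) := by
        have h4 := ee_abs (G := G) (H := H) (κ := κ) (q := q) t y x
        have h5 : (|ee G H κ q t y x| : ℤ) ≤ (B : ℤ) := h4.trans (by exact_mod_cast hB t)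
        exact_mod_cast h5
      rw [abs_le] at h3 ⊢
      constructor <;> linarith
    · apply Tendsto.div_atTop tendsto_const_nhds
      exact hL'.const_mul_atTop (by norm_num : (0:ℝ) < 2)
  have h3 : Tendsto (fun t => clip (1 / 2 + (((ee G H κ q t y x : ℤ) : ℝ) -
      ((ee G H κ q t x y : ℤ) : ℝ)) / (2 * L t))) atTop (𝓝 (clip (1 / 2 + 0))) :=
    (continuous_clip.tendsto _).comp (tendsto_const_nhds.add h2)
  rw [add_zero, clip_self (by norm_num) (by norm_num)] at h3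
  exact h3

theorem meas_mm (hH : MeasurableSet H) (hκ : Measurable κ) (t : ℕ) :
    Measurable (fun p : X × X => mm G H κ q L t p.1 p.2) := by
  unfold mm
  have h1 : Measurable (fun p : X × X => ((ee G H κ q t p.1 p.2 : ℤ) : ℝ)) :=
    (measurable_from_top (f := fun z : ℤ => (z : ℝ))).comp (meas_ee hH hκ t)
  have h2 : Measurable (fun p : X × X => ((ee G H κ q t p.2 p.1 : ℤ) : ℝ)) :=
    h1.comp measurable_swap
  exact continuous_clip.measurable.comp (((h2.sub h1).div_const _).const_add _)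

/-! ### convex combinations -/

/-- the `n`-th convex combination of the sequence `v` -/
noncomputable def cc (lam : ℕ → ℕ →₀ ℝ) (n : ℕ) (v : ℕ → ℝ) : ℝ :=
  (lam n).sum fun t a => a * v t

variable {lam : ℕ → ℕ →₀ ℝ}

theorem cc_add (n : ℕ) (v w : ℕ → ℝ) : cc lam n (fun t => v t + w t) = cc lam n v + cc lam n w := by
  unfold cc Finsupp.sum
  rw [← Finset.sum_add_distrib]
  exact Finset.sum_congr rfl fun t _ => by ring

theorem cc_const (h1 : ∀ n, ((lam n).sum fun _ a => a) = 1) (n : ℕ) (C : ℝ) :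
    cc lam n (fun _ => C) = C := by
  unfold cc
  have := h1 n
  unfold Finsupp.sum at this ⊢
  rw [← Finset.sum_mul, this, one_mul]

theorem cc_le (h0 : ∀ n t, 0 ≤ lam n t) (ht : ∀ n t, t < n → lam n t = 0)
    (h1 : ∀ n, ((lam n).sum fun _ a => a) = 1) {v : ℕ → ℝ} {C : ℝ}
    (h : ∀ᶠ t in atTop, v t ≤ C) : ∀ᶠ n in atTop, cc lam n v ≤ C := by
  obtain ⟨T, hT⟩ := eventually_atTop.1 h
  refine eventually_atTop.2 ⟨T, fun n hn => ?_⟩
  rw [← cc_const h1 n C]
  unfold cc Finsupp.sum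
  apply Finset.sum_le_sum
  intro t htm
  by_cases htn : t < n
  · rw [ht n t htn]
    simp
  · exact mul_le_mul_of_nonneg_left (hT t (by omega)) (h0 n t)

theorem cc_ge (h0 : ∀ n t, 0 ≤ lam n t) (ht : ∀ n t, t < n → lam n t = 0)
    (h1 : ∀ n, ((lam n).sum fun _ a => a) = 1) {v : ℕ → ℝ} {C : ℝ}
    (h : ∀ᶠ t in atTop, C ≤ v t) : ∀ᶠ n in atTop, C ≤ cc lam n v := by
  obtain ⟨T, hT⟩ := eventually_atTop.1 h
  refine eventually_atTop.2 ⟨T, fun n hn => ?_⟩
  rw [← cc_const h1 n C]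
  unfold cc Finsupp.sum
  apply Finset.sum_le_sum
  intro t htm
  by_cases htn : t < n
  · rw [ht n t htn]
    simp
  · exact mul_le_mul_of_nonneg_left (hT t (by omega)) (h0 n t)

theorem cc_tendsto (h0 : ∀ n t, 0 ≤ lam n t) (ht : ∀ n t, t < n → lam n t = 0)
    (h1 : ∀ n, ((lam n).sum fun _ a => a) = 1) {v : ℕ → ℝ} {l : ℝ}
    (h : Tendsto v atTop (𝓝 l)) : Tendsto (fun n => cc lam n v) atTop (𝓝 l) := by
  rw [Metric.tendsto_nhds] at h ⊢
  intro ε hε
  have h2 := h (ε / 2) (by positivity)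
  have h3 : ∀ᶠ t in atTop, v t ≤ l + ε / 2 := h2.mono fun t ht' => by
    rw [Real.dist_eq, abs_lt] at ht'; linarith
  have h4 : ∀ᶠ t in atTop, l - ε / 2 ≤ v t := h2.mono fun t ht' => by
    rw [Real.dist_eq, abs_lt] at ht'; linarith
  filter_upwards [cc_le h0 ht h1 h3, cc_ge h0 ht h1 h4] with n a b
  rw [Real.dist_eq, abs_lt]
  constructor <;> linarith

end UC
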