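import Pool.Agent.UC.Basic

/-! Measurable selection of an index. -/

open MeasureTheory Filter Topology Set

namespace UC

variable {X : Type*} [MeasurableSpace X]

theorem exists_meas_select (P : ℕ → X → Prop) (hP : ∀ i, MeasurableSet {x | P i x}) :
    ∃ g : X → ℕ, Measurable g ∧ ∀ x, (∃ i, P i x) → P (g x) x := by
  classical
  have hp : ∀ x, ∃ i, (P i x ∨ ¬ ∃ j, P j x) := by
    intro x
    by_cases h : ∃ i, P i x
    · exact ⟨_, Or.inl h.choose_spec⟩
    · exact ⟨0, Or.inr h⟩
  refine ⟨fun x => Nat.find (hp x), ?_, ?_⟩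
  · apply measurable_find hp
    intro i
    have e : {x | P i x ∨ ¬ ∃ j, P j x} = {x | P i x} ∪ (⋃ j, {x | P j x})ᶜ := by
      ext x
      simp only [mem_ofPred_eq, mem_union, mem_compl_iff, mem_iUnion]
    rw [e]
    exact (hP i).union (MeasurableSet.iUnion hP).compl
  · intro x hx
    rcases Nat.find_spec (hp x) with h | h
    · exact h
    · exact absurd hx h

theorem meas_apply {Y : Type*} [MeasurableSpace Y] {f : ℕ → X → Y} (hf : ∀ i, Measurable (f i))
    {g : X → ℕ} (hg : Measurable g) : Measurable (fun x => f (g x) x) := by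
  have : Measurable fun p : X × ℕ => f p.2 p.1 := measurable_from_prod_countable_left fun n => hf n
  exact this.comp (Measurable.prodMk measurable_id hg)

end UC
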