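import Pool.Agent.UC.Limit
import Pool.Agent.UC.Select

/-! The key step. -/

open MeasureTheory Filter Topology Set

namespace UC

variable {X : Type*} [MeasurableSpace X]

/-- the extended structure -/
theorem str_ext {G : EG X} {H : Set X} {f : X → X} (hS : G.Str H f) {H1 : Set X} {g : X → X}
    (hdisj : ∀ x ∈ H1, x ∉ H) (hdeg : ∀ x ∈ H1, 3 ≤ G.dg x)
    (hpar : ∀ x ∈ H1, G.Adj x (g x)) (hparH : ∀ x ∈ H1, g x ∉ H)
    (hchild : ∀ x ∈ H1, ∀ z, G.Adj x z → z ∉ H → z ≠ g x → z ∈ H1 ∧ g z = x)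
    (hnb : ∀ x ∈ H1, g x ∈ H1 → g (g x) ≠ x) :
    G.Str (H ∪ H1) (open Classical in fun x => if x ∈ H then f x else g x) := by
  classical
  have e1 : ∀ x ∈ H, (if x ∈ H then f x else g x) = f x := fun x hx => if_pos hx
  have e2 : ∀ x ∉ H, (if x ∈ H then f x else g x) = g x := fun x hx => if_neg hx
  refine ⟨?_, ?_, ?_, ?_⟩
  · rintro x (hx | hx)
    · exact hS.deg x hx
    · exact hdeg x hx
  · rintro x (hx | hx)
    · simp only [e1 x hx]
      exact hS.par x hx
    · simp only [e2 x (hdisj x hx)]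
      exact hpar x hx
  · rintro x (hx | hx) z hxz hz
    · simp only [e1 x hx] at hz
      obtain ⟨h1, h2⟩ := hS.child x hx z hxz hz
      exact ⟨Or.inl h1, by simp only [e1 z h1]; exact h2⟩
    · have hxH := hdisj x hx
      simp only [e2 x hxH] at hz
      by_cases hzH : z ∈ H
      · refine ⟨Or.inl hzH, ?_⟩
        simp only [e1 z hzH]
        by_contra hne
        exact hxH (hS.child z hzH x (G.adj_symm hxz) (fun h => hne h.symm)).1
      · obtain ⟨h1, h2⟩ := hchild x hx z hxz hzH hz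
        exact ⟨Or.inr h1, by simp only [e2 z hzH]; exact h2⟩
  · rintro x (hx | hx) hfx
    · simp only [e1 x hx] at hfx ⊢
      by_cases hH : f x ∈ H
      · simp only [e1 _ hH]
        exact hS.noback x hx hH
      · simp only [e2 _ hH]
        rcases hfx with h | h
        · exact absurd h hH
        · intro he
          exact hparH _ h (by rw [he]; exact hx)
    · have hxH := hdisj x hx
      simp only [e2 x hxH] at hfx ⊢
      have hgH := hparH x hx
      simp only [e2 _ hgH]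
      rcases hfx with h | h
      · exact absurd h hgH
      · exact hnb x hx h

theorem ae_not_YY [StandardBorelSpace X] (hLt : Stmt_Lt X) (hCvx : Stmt_Cvx X) (G : EG X) (μ : Measure X)
    [IsFiniteMeasure μ] (hqi : G.QI μ) {q : ℕ} {κ : X → ℕ} (hκm : Measurable κ)
    (hκ : ∀ x y, G.Adj x y → κ x ≠ κ y)
    {H : Set X} {f : X → X} (hH : MeasurableSet H) (hf : Measurable f) (hS : G.Str H f)
    (hmax : ∀ (H' : Set X) (f' : X → X), MeasurableSet H' → Measurable f' → G.Str H' f' →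
      H ⊆ H' → (∀ x ∈ H, f' x = f x) → μ (H' \ H) = 0) :
    ∀ᵐ x ∂μ, ¬ YY G H κ q x := by
  classical
  have hFm : ∀ t, Measurable (FF G H κ q t) := fun t => meas_FF (q := q) hH hκm t
  have hFmono : ∀ x, Monotone (fun t => FF G H κ q t x) := fun x => FF_mono x
  obtain ⟨L, hL, hL', hLF⟩ := hLt μ (FF G H κ q) hFm hFmono
  have hum : ∀ t i, Measurable (fun x => mm G H κ q L t x (G.nb i x)) := by
    intro t i
    have h := meas_mm (G := G) (κ := κ) (q := q) (L := L) hH hκm t
    have h' : Measurable (fun x : X => (x, G.nb i x)) := measurable_id.prodMk (G.nb_meas i)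
    have h2 := h.comp h'
    simp only [Function.comp_def] at h2
    exact h2
  have hua : ∀ t i x, |mm G H κ q L t x (G.nb i x)| ≤ 1 := fun t i x => mm_abs t _ _
  obtain ⟨lam, h0, ht, h1, hcv⟩ := hCvx μ G.D (fun t i x => mm G H κ q L t x (G.nb i x)) hum hua
  have hgood : ∀ᵐ x ∂μ, Good G H κ q L lam x := by
    filter_upwards [hLF, hcv] with x hx1 hx2
    refine ⟨?_, hx1⟩
    rintro y ⟨i, hi, rfl⟩
    obtain ⟨l, hl⟩ := hx2 i (lt_of_lt_of_le hi (G.dg_le x))
    exact tendsto_nhds_limUnder ⟨l, hl⟩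
  obtain ⟨I, hIm, hIae, hIg, hIinv⟩ := G.exists_invariant hqi hgood
  -- abbreviations
  let Wit : ℕ → X → Prop := fun i x => i < G.dg x ∧ G.nb i x ∉ H ∧ big G H κ q L lam x (G.nb i x)
  have hWitm : ∀ i, MeasurableSet {x | Wit i x} := by
    intro i
    have h' : Measurable (fun x : X => (x, G.nb i x)) := measurable_id.prodMk (G.nb_meas i)
    have h3 := h' (meas_big (G := G) (q := q) (L := L) (lam := lam) hH hκm)
    exact (G.measurableSet_lt_dg i).inter ((G.nb_meas i hH).compl.inter h3)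
  obtain ⟨idx, hidxm, hidx⟩ := exists_meas_select Wit hWitm
  let H1 : Set X := {x | x ∈ I ∧ YY G H κ q x ∧ ∃ i, Wit i x}
  have hH1m : MeasurableSet H1 := by
    have : H1 = I ∩ ({x | YY G H κ q x} ∩ ⋃ i, {x | Wit i x}) := by
      ext x
      simp only [H1, mem_ofPred_eq, mem_inter_iff, mem_iUnion]
    rw [this]
    exact hIm.inter ((meas_YY hH hκm).inter (MeasurableSet.iUnion hWitm))
  let g : X → X := fun x => G.nb (idx x) x
  have hgm : Measurable g := meas_apply G.nb_meas hidxm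
  have hg : ∀ x ∈ H1, G.Adj x (g x) ∧ g x ∉ H ∧ 1 / 2 < lm G H κ q L lam x (g x) := by
    intro x hx
    obtain ⟨h2, h3, h4⟩ := hidx x hx.2.2
    have hadj : G.Adj x (g x) := G.adj_nb h2
    exact ⟨hadj, h3, (big_iff (hIg x hx.1) hadj).1 h4⟩
  have hmemH1 : ∀ x y, x ∈ I → YY G H κ q x → G.Adj x y → y ∉ H →
      1 / 2 < lm G H κ q L lam x y → x ∈ H1 := by
    intro x y hx hY hxy hyH hl
    have hb := (big_iff (hIg x hx) hxy).2 hl
    obtain ⟨i, hi, rfl⟩ := hxy
    exact ⟨hx, hY, i, hi, hyH, hb⟩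
  have huniq : ∀ x y z, x ∈ I → G.Adj x y → G.Adj x z → 1 / 2 < lm G H κ q L lam x y →
      1 / 2 < lm G H κ q L lam x z → y = z := by
    intro x y z hx hxy hxz h2 h3
    by_contra hne
    have := lm_pair h0 ht h1 hκ hL hL' (hIg x hx) hxy hxz hne
    linarith
  have hdisj : ∀ x ∈ H1, x ∉ H := fun x hx => not_mem_of_YY hx.2.1
  have hthree : ∀ x ∈ H1, 3 ≤ G.dg x := by
    intro x hx
    obtain ⟨h2, h3, h4⟩ := hg x hx
    by_contra hlt
    have hd : G.cnt x (fun y => y ∉ H) ≤ 2 := (G.cnt_le x _).trans (by omega)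
    have := lm_few h0 ht h1 hκ hL (hIg x hx.1) hx.2.1 h2 h3 hd
    linarith
  -- the extension
  have hStr : G.Str (H ∪ H1) (fun x => if x ∈ H then f x else g x) := by
    refine str_ext hS (H1 := H1) (g := g) hdisj hthree (fun x hx => (hg x hx).1)
      (fun x hx => (hg x hx).2.1) ?_ ?_
    · intro x hx z hxz hzH hz
      obtain ⟨h2, h3, h4⟩ := hg x hx
      have h5 := lm_pair h0 ht h1 hκ hL hL' (hIg x hx.1) h2 hxz (Ne.symm hz)
      have hzI : z ∈ I := hIinv x hx.1 z hxz
      have hzY : YY G H κ q z := by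
        by_contra hn
        have := lm_out h0 ht h1 hκ hL hL' (hIg x hx.1) hxz hn
        linarith
      have h6 := lm_add h1 (hIg x hx.1) (hIg z hzI) hxz
      have h7 : 1 / 2 < lm G H κ q L lam z x := by linarith
      have hzH1 : z ∈ H1 := hmemH1 z x hzI hzY (G.adj_symm hxz) (hdisj x hx) h7
      refine ⟨hzH1, ?_⟩
      exact huniq z (g z) x hzI (hg z hzH1).1 (G.adj_symm hxz) (hg z hzH1).2.2 h7
    · intro x hx hgx he
      obtain ⟨h2, h3, h4⟩ := hg x hx
      have h5 := (hg _ hgx).2.2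
      rw [he] at h5
      have h6 := lm_add h1 (hIg x hx.1) (hIg _ (hIinv x hx.1 _ h2)) h2
      linarith
  have hnull : μ H1 = 0 := by
    have h2 := hmax (H ∪ H1) (fun x => if x ∈ H then f x else g x) (hH.union hH1m)
      (Measurable.ite hH hf hgm) hStr subset_union_left (fun x hx => if_pos hx)
    refine measure_mono_null ?_ h2
    intro x hx
    exact ⟨Or.inr hx, hdisj x hx⟩
  have hae : ∀ᵐ x ∂μ, x ∈ I ∧ x ∉ H1 := by
    have h2 : ∀ᵐ x ∂μ, x ∉ H1 := measure_eq_zero_iff_ae_notMem.1 hnull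
    filter_upwards [hIae, h2] with x a b using ⟨a, b⟩
  obtain ⟨J, hJm, hJae, hJg, hJinv⟩ := G.exists_invariant hqi hae
  filter_upwards [hJae] with x hxJ hY
  have hxI := (hJg x hxJ).1
  have hxH := not_mem_of_YY hY
  -- find a neighbour y ∉ H with lm x y < 1/2
  obtain ⟨y, hxy, hyH, hly⟩ : ∃ y, G.Adj x y ∧ y ∉ H ∧ lm G H κ q L lam x y < 1 / 2 := by
    by_cases hd : 3 ≤ G.cnt x (fun y => y ∉ H)
    · obtain ⟨a, b, c, ha, hb, hc, haH, hbH, hcH, hab, hac, hbc⟩ := G.exists_three hd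
      have h2 := lm_triple h0 ht h1 hκ hL hL' (hIg x hxI) hY ha hb hc hab hac hbc
      by_contra hn
      push Not at hn
      have := hn a ha haH
      have := hn b hb hbH
      have := hn c hc hcH
      linarith
    · obtain ⟨y, hxy, hyH⟩ := exists_nbr_of_YY hY
      refine ⟨y, hxy, hyH, ?_⟩
      rw [lm_few h0 ht h1 hκ hL (hIg x hxI) hY hxy hyH (by omega)]
      norm_num
  have hyJ := hJinv x hxJ y hxy
  have hyI := (hJg y hyJ).1
  have hyY : YY G H κ q y := by
    by_contra hn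
    have := lm_out h0 ht h1 hκ hL hL' (hIg x hxI) hxy hn
    linarith
  have h6 := lm_add h1 (hIg x hxI) (hIg y hyI) hxy
  exact (hJg y hyJ).2 (hmemH1 y x hyI hyY (G.adj_symm hxy) hxH (by linarith))

end UC
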