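import Pool.Agent.UC.Stmts

open MeasureTheory Filter Topology Set

namespace UC

theorem ln (X : Type*) [MeasurableSpace X] [StandardBorelSpace X] : UC.Stmt_LN X := by
  intro G hG D hD
  classical
  obtain ⟨e, he⟩ := MeasureTheory.exists_measurableEmbedding_real X
  -- the degree
  set n : X → ℕ := fun x => (G.neighborSet x).ncard with hn
  have hfin : ∀ x, (e '' (G.neighborSet x)).Finite := fun x => (hD x).1.image e
  have hcard : ∀ x, (hfin x).toFinset.card = n x := by
    intro x
    rw [← Set.ncard_eq_toFinset_card _ (hfin x)]
    exact Set.ncard_image_of_injective _ he.injective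
  have hle : ∀ x, n x ≤ D := fun x => (hD x).2
  -- tuples
  have hex : ∀ x, ∃ y : Fin (n x) → X, ∀ i, G.Adj x (y i) ∧
      e (y i) = (hfin x).toFinset.orderEmbOfFin (hcard x) i := by
    intro x
    have : ∀ i : Fin (n x), ∃ y, G.Adj x y ∧
        e y = (hfin x).toFinset.orderEmbOfFin (hcard x) i := by
      intro i
      have h := (hfin x).toFinset.orderEmbOfFin_mem (hcard x) i
      rw [Set.Finite.mem_toFinset] at h
      obtain ⟨y, hy, hy'⟩ := h
      exact ⟨y, hy, hy'⟩
    choose y hy using this
    exact ⟨y, hy⟩
  choose tup htup using hex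
  have hmono : ∀ x, StrictMono (fun i => e (tup x i)) := by
    intro x i j hij
    show e (tup x i) < e (tup x j)
    rw [(htup x i).2, (htup x j).2]
    exact ((hfin x).toFinset.orderEmbOfFin (hcard x)).strictMono hij
  have huniq : ∀ x (y : Fin (n x) → X), StrictMono (fun i => e (y i)) → (∀ i, G.Adj x (y i)) →
      y = tup x := by
    intro x y hy hadj
    have h1 := Finset.orderEmbOfFin_unique (hcard x) (f := fun i => e (y i))
      (fun i => by
        rw [Set.Finite.mem_toFinset]
        exact ⟨y i, hadj i, rfl⟩) hy
    funext i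
    apply he.injective
    rw [(htup x i).2]
    exact congrFun h1 i
  have hsurj : ∀ x z, G.Adj x z → ∃ i, tup x i = z := by
    intro x z hz
    have h1 : e z ∈ Set.range ((hfin x).toFinset.orderEmbOfFin (hcard x)) := by
      rw [Finset.range_orderEmbOfFin]
      rw [Set.Finite.coe_toFinset]
      exact ⟨z, hz, rfl⟩
    obtain ⟨i, hi⟩ := h1
    refine ⟨i, he.injective ?_⟩
    rw [(htup x i).2, hi]
  -- the Borel sets of tuples
  let S : ∀ k : ℕ, Set (X × (Fin k → X)) := fun k =>
    {p | StrictMono (fun i => e (p.2 i)) ∧ ∀ i, G.Adj p.1 (p.2 i)}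
  have hS : ∀ k, MeasurableSet (S k) := by
    intro k
    have h1 : MeasurableSet {p : X × (Fin k → X) | StrictMono (fun i => e (p.2 i))} := by
      have : {p : X × (Fin k → X) | StrictMono (fun i => e (p.2 i))}
          = ⋂ i, ⋂ j, {p | i < j → e (p.2 i) < e (p.2 j)} := by
        ext p
        simp only [Set.mem_ofPred_eq, Set.mem_iInter, StrictMono]
      rw [this]
      refine MeasurableSet.iInter fun i => MeasurableSet.iInter fun j => ?_
      by_cases hij : i < j
      · simp only [hij, true_imp_iff]
        exact measurableSet_lt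
          (he.measurable.comp ((measurable_pi_apply i).comp measurable_snd))
          (he.measurable.comp ((measurable_pi_apply j).comp measurable_snd))
      · simp only [hij, false_imp_iff, Set.ofPred_true, MeasurableSet.univ]
    have h2 : MeasurableSet {p : X × (Fin k → X) | ∀ i, G.Adj p.1 (p.2 i)} := by
      have : {p : X × (Fin k → X) | ∀ i, G.Adj p.1 (p.2 i)}
          = ⋂ i, {p | G.Adj p.1 (p.2 i)} := by
        ext p
        simp only [Set.mem_ofPred_eq, Set.mem_iInter]
      rw [this]
      refine MeasurableSet.iInter fun i => ?_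
      have hm : Measurable (fun p : X × (Fin k → X) => (p.1, p.2 i)) :=
        measurable_fst.prodMk ((measurable_pi_apply i).comp measurable_snd)
      exact hm hG
    exact h1.inter h2
  have hSle : ∀ k (p : X × (Fin k → X)), p ∈ S k → k ≤ n p.1 := by
    intro k p hp
    have h1 : Function.Injective p.2 := by
      intro i j hij
      apply hp.1.injective
      show e (p.2 i) = e (p.2 j)
      rw [hij]
    have h2 : (Set.range p.2).ncard = k := by
      rw [← Set.image_univ, Set.ncard_image_of_injective _ h1, Set.ncard_univ, Nat.card_fin]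
    have h3 : Set.range p.2 ⊆ G.neighborSet p.1 := by
      rintro _ ⟨i, rfl⟩
      exact hp.2 i
    calc k = (Set.range p.2).ncard := h2.symm
      _ ≤ n p.1 := Set.ncard_le_ncard h3 (hD p.1).1
  -- T k B
  have hT : ∀ k, MeasurableSet {x | k + 1 ≤ n x} → ∀ B : Set (Fin k → X), MeasurableSet B →
      MeasurableSet (Prod.fst '' (S k ∩ {p | ¬ (k + 1 ≤ n p.1) ∧ p.2 ∈ B})) := by
    intro k hk B hB
    apply MeasurableSet.image_of_measurable_injOn _ measurable_fst
    · rintro ⟨x, y⟩ ⟨hp, hp', -⟩ ⟨x', y'⟩ ⟨hq, hq', -⟩ hxx
      have hxx : x = x' := hxx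
      subst hxx
      have hk : n x = k := by
        have := hSle k _ hp
        simp only at this hp'
        omega
      subst hk
      rw [huniq x y hp.1 hp.2, huniq x y' hq.1 hq.2]
    · refine (hS k).inter ?_
      exact (measurable_fst hk).compl.inter (measurable_snd hB)
  have himg : ∀ k (B : Set (Fin k → X)),
      (Prod.fst '' (S k ∩ {p | ¬ (k + 1 ≤ n p.1) ∧ p.2 ∈ B}))
        = {x | ∃ h : n x = k, (fun i => tup x (Fin.cast h.symm i)) ∈ B} := by
    intro k B
    ext x
    constructor
    · rintro ⟨⟨x', y⟩, ⟨hp, hp', hB⟩, rfl⟩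
      have hk : n x' = k := by
        have := hSle k _ hp
        simp only at this hp'
        omega
      subst hk
      refine ⟨rfl, ?_⟩
      have := huniq x' y hp.1 hp.2
      simp only [Fin.cast_eq_self]
      rw [← this]
      exact hB
    · rintro ⟨h, hB⟩
      subst h
      refine ⟨(x, tup x), ⟨⟨hmono x, fun i => (htup x i).1⟩, ?_, ?_⟩, rfl⟩
      · simp
      · exact hB
  have hP : ∀ j k, k + j = D + 1 → MeasurableSet {x | k ≤ n x} := by
    intro j
    induction j with
    | zero =>
      intro k hk
      have : {x | k ≤ n x} = ∅ := by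
        ext x
        simp only [Set.mem_ofPred_eq, Set.mem_empty_iff_false, iff_false, not_le]
        have := hle x
        omega
      rw [this]
      exact MeasurableSet.empty
    | succ j ih =>
      intro k hk
      have h1 := ih (k + 1) (by omega)
      have h2 := hT k h1 Set.univ MeasurableSet.univ
      rw [himg] at h2
      have : {x | k ≤ n x} = {x | k + 1 ≤ n x} ∪
          {x | ∃ h : n x = k, (fun i => tup x (Fin.cast h.symm i)) ∈ Set.univ} := by
        ext x
        simp only [Set.mem_ofPred_eq, Set.mem_union, Set.mem_univ, exists_prop, and_true]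
        omega
      rw [this]
      exact h1.union h2
  have hP' : ∀ k, MeasurableSet {x | k ≤ n x} := by
    intro k
    by_cases hk : k ≤ D + 1
    · exact hP (D + 1 - k) k (by omega)
    · have : {x | k ≤ n x} = ∅ := by
        ext x
        simp only [Set.mem_ofPred_eq, Set.mem_empty_iff_false, iff_false, not_le]
        have := hle x
        omega
      rw [this]
      exact MeasurableSet.empty
  have hB' : ∀ k (B : Set (Fin k → X)), MeasurableSet B →
      MeasurableSet {x | ∃ h : n x = k, (fun i => tup x (Fin.cast h.symm i)) ∈ B} := by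
    intro k B hB
    rw [← himg]
    exact hT k (hP' (k + 1)) B hB
  have hnmeas : Measurable n := by
    apply measurable_to_countable'
    intro k
    have := hB' k Set.univ MeasurableSet.univ
    have h2 : {x | ∃ h : n x = k, (fun i => tup x (Fin.cast h.symm i)) ∈ Set.univ} = n ⁻¹' {k} := by
      ext x
      simp
    rw [← h2]
    exact this
  let nb : ℕ → X → X := fun i x => if h : i < n x then tup x ⟨i, h⟩ else x
  have hnb : ∀ x i (h : i < n x), nb i x = tup x ⟨i, h⟩ := by
    intro x i h
    simp only [nb, h, dif_pos]
  have hnbmeas : ∀ i, Measurable (nb i) := by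
    intro i B hB
    have : nb i ⁻¹' B = ({x | n x ≤ i} ∩ B) ∪
        ⋃ k, ⋃ hk : i < k, {x | ∃ h : n x = k, (fun i => tup x (Fin.cast h.symm i)) ∈
          {y : Fin k → X | y ⟨i, hk⟩ ∈ B}} := by
      ext x
      simp only [Set.mem_preimage, Set.mem_union, Set.mem_inter_iff, Set.mem_ofPred_eq,
        Set.mem_iUnion]
      constructor
      · intro hx
        by_cases h : i < n x
        · right
          refine ⟨n x, h, rfl, ?_⟩
          rw [hnb x i h] at hx
          exact hx
        · left
          refine ⟨by omega, ?_⟩
          simp only [nb, h, dif_neg, not_false_iff] at hx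
          exact hx
      · rintro (⟨h, hx⟩ | ⟨k, hk, h, hx⟩)
        · have h' : ¬ i < n x := by omega
          simp only [nb, h', dif_neg, not_false_iff]
          exact hx
        · subst h
          rw [hnb x i hk]
          exact hx
    rw [this]
    refine MeasurableSet.union ((measurableSet_le hnmeas measurable_const).inter hB) ?_
    refine MeasurableSet.iUnion fun k => MeasurableSet.iUnion fun hk => ?_
    exact hB' k _ (measurable_pi_apply _ hB)
  have hadj : ∀ x y, G.Adj x y ↔ ∃ i, i < n x ∧ nb i x = y := by
    intro x y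
    constructor
    · intro h
      obtain ⟨i, hi⟩ := hsurj x y h
      exact ⟨i, i.2, by rw [hnb x i i.2]; exact hi⟩
    · rintro ⟨i, hi, rfl⟩
      rw [hnb x i hi]
      exact (htup x _).1
  refine ⟨{ D := D
            dg := n
            nb := nb
            dg_le := hle
            dg_meas := hnmeas
            nb_meas := hnbmeas
            irr := ?_
            inj := ?_
            symm := ?_ }, ?_⟩
  · intro x i hi h
    have := (hadj x (nb i x)).2 ⟨i, hi, rfl⟩
    rw [h] at this
    exact G.irrefl this
  · intro x i j hi hj hij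
    rw [hnb x i hi, hnb x j hj] at hij
    have h2 := (hmono x).injective (a₁ := ⟨i, hi⟩) (a₂ := ⟨j, hj⟩) (by
      show e _ = e _
      rw [hij])
    simpa using h2
  · intro x i hi
    have h1 := ((hadj x (nb i x)).2 ⟨i, hi, rfl⟩).symm
    exact (hadj _ _).1 h1
  · intro x y
    exact hadj x y

end UC
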