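import Pool.Agent.UC.Defs

/-!
# Exact statements of the modules (MP_99e1f5_lc, partial: min(deg,4)/2 opposite neighbours)

Paper proof: /team-store/MP_99e1f5_PROOF.md
-/

open MeasureTheory Filter Topology Set

namespace UC

/-- M1: Lusin-Novikov for bounded degree Borel graphs. -/
def Stmt_LN (X : Type*) [MeasurableSpace X] [StandardBorelSpace X] : Prop :=
  ∀ (G : SimpleGraph X), MeasurableSet {p : X × X | G.Adj p.1 p.2} →
    ∀ D : ℕ, (∀ x, (G.neighborSet x).Finite ∧ (G.neighborSet x).ncard ≤ D) →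
    ∃ E : EG X, ∀ x y, G.Adj x y ↔ E.Adj x y

/-- M2: finite measurable proper colouring. -/
def Stmt_Col (X : Type*) [MeasurableSpace X] [StandardBorelSpace X] : Prop :=
  ∀ G : EG X, ∃ (q : ℕ) (κ : X → ℕ), Measurable κ ∧ (∀ x, κ x < q) ∧
    ∀ x y, G.Adj x y → κ x ≠ κ y

/-- M3: maximal structures exist. -/
def Stmt_Max (X : Type*) [MeasurableSpace X] [StandardBorelSpace X] : Prop :=
  ∀ (G : EG X) (μ : Measure X) [IsFiniteMeasure μ], ∃ (H : Set X) (f : X → X),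
    MeasurableSet H ∧ Measurable f ∧ G.Str H f ∧
    ∀ (H' : Set X) (f' : X → X), MeasurableSet H' → Measurable f' → G.Str H' f' →
      H ⊆ H' → (∀ x ∈ H, f' x = f x) → μ (H' \ H) = 0

/-- M4: a normalising sequence. -/
def Stmt_Lt (X : Type*) [MeasurableSpace X] : Prop :=
  ∀ (μ : Measure X) [IsFiniteMeasure μ] (F : ℕ → X → ℕ), (∀ t, Measurable (F t)) →
    (∀ x, Monotone (fun t => F t x)) →
    ∃ L : ℕ → ℝ, (∀ t, 1 ≤ L t) ∧ Tendsto L atTop atTop ∧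
      ∀ᵐ x ∂μ, Tendsto (fun t => F t x) atTop atTop →
        Tendsto (fun t => (F t x : ℝ) / L t) atTop atTop

/-- M5: convex combinations of tails converge almost everywhere (Mazur/Komlos). -/
def Stmt_Cvx (Ω : Type*) [MeasurableSpace Ω] : Prop :=
  ∀ (ν : Measure Ω) [IsFiniteMeasure ν] (D : ℕ) (u : ℕ → ℕ → Ω → ℝ),
    (∀ t i, Measurable (u t i)) → (∀ t i ω, |u t i ω| ≤ 1) →
    ∃ lam : ℕ → ℕ →₀ ℝ, (∀ n t, 0 ≤ lam n t) ∧ (∀ n t, t < n → lam n t = 0) ∧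
      (∀ n, ((lam n).sum fun _ a => a) = 1) ∧
      ∀ᵐ ω ∂ν, ∀ i < D, ∃ l : ℝ,
        Tendsto (fun n => (lam n).sum fun t a => a * u t i ω) atTop (𝓝 l)

/-- M6: the window rule: `Z` is a union of connected components on which `G` is the graph of
the acyclic function `f`. -/
def Stmt_Win (X : Type*) [MeasurableSpace X] [StandardBorelSpace X] : Prop :=
  ∀ (G : EG X) (q : ℕ) (κ : X → ℕ), Measurable κ → (∀ x, κ x < q) →
    (∀ x y, G.Adj x y → κ x ≠ κ y) →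
    ∀ (Z : Set X) (f : X → X), MeasurableSet Z → Measurable f →
      (∀ x ∈ Z, 2 ≤ G.dg x) → (∀ x ∈ Z, G.Adj x (f x)) → (∀ x ∈ Z, f x ∈ Z) →
      (∀ x ∈ Z, ∀ z, G.Adj x z → z ≠ f x → z ∈ Z ∧ f z = x) →
      (∀ x ∈ Z, f (f x) ≠ x) →
      ∃ c : X → Bool, Measurable c ∧ ∀ x ∈ Z, G.dg x ≤ 2 * G.cnt x (fun y => c y ≠ c x)

end UC
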