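import Pool.Agent.UC.Flow
import Pool.Agent.UC.Stmts

/-! The limit flow and the key step: by maximality of `H` almost every vertex outside `H` flips
only finitely often. -/

open MeasureTheory Filter Topology Set

namespace UC

variable {X : Type*} [MeasurableSpace X]
variable {G : EG X} {H : Set X} {κ : X → ℕ} {q : ℕ} {L : ℕ → ℝ} {lam : ℕ → ℕ →₀ ℝ}

theorem mm_pair (hκ : ∀ x y, G.Adj x y → κ x ≠ κ y) (hL : ∀ t, 1 ≤ L t) (t : ℕ) {x y z : X}
    (hy : G.Adj x y) (hz : G.Adj x z) (hyz : y ≠ z) :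
    mm G H κ q L t x y + mm G H κ q L t x z ≤ 1 + 1 / L t := by
  obtain ⟨s₁, hs₁, hs₁', e₁⟩ := mm_arg (H := H) (q := q) hκ t hy
  obtain ⟨s₂, hs₂, hs₂', e₂⟩ := mm_arg (H := H) (q := q) hκ t hz
  have p1 : (0 : ℝ) ≤ (ee G H κ q t x y : ℤ) + (ee G H κ q t x z : ℤ) := by
    exact_mod_cast ee_pair (G := G) (H := H) (κ := κ) (q := q) t hy hz hyz
  have hL0 : 0 < L t := lt_of_lt_of_le one_pos (hL t)
  have hL2 : 0 < 2 * L t := by linarith
  unfold mm
  rw [e₁, e₂]
  generalize ((ee G H κ q t x y : ℤ) : ℝ) = a at *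
  generalize ((ee G H κ q t x z : ℤ) : ℝ) = b at *
  generalize L t = l at *
  have hone : 1 / l = 2 / (2 * l) := by field_simp
  have key : ∀ r s : ℝ, r ≤ s → r / (2 * l) ≤ s / (2 * l) := fun r s h =>
    div_le_div_of_nonneg_right h hL2.le
  apply clip_two
  · rw [hone]
    have h1 := key ((s₁ - a - a) + (s₂ - b - b)) 2 (by linarith)
    rw [add_div] at h1
    linarith
  · have : 0 ≤ 1 / l := by positivity
    linarith

/-- vertices of `H` never flip -/
theorem FF_of_mem {x : X} (hx : x ∈ H) (t : ℕ) : FF G H κ q t x = 0 := by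
  classical
  induction t with
  | zero => rfl
  | succ t ih =>
    rw [FF_succ, ih, if_neg]
    exact fun h => h.1.1 hx

/-- vertices all of whose neighbours are in `H` never flip -/
theorem FF_of_isolated {x : X} (hx : ∀ y, G.Adj x y → y ∈ H) (t : ℕ) : FF G H κ q t x = 0 := by
  classical
  induction t with
  | zero => rfl
  | succ t ih =>
    rw [FF_succ, ih, if_neg]
    intro h
    have h1 := h.1.2
    rw [G.cnt_true x (fun y hy => Or.inl (hx y hy))] at h1
    unfold rr at h1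
    omega

/-- `x` flips infinitely often -/
def YY (G : EG X) (H : Set X) (κ : X → ℕ) (q : ℕ) (x : X) : Prop :=
  Tendsto (fun t => FF G H κ q t x) atTop atTop

theorem not_mem_of_YY {x : X} (h : YY G H κ q x) : x ∉ H := by
  intro hx
  have h2 := (tendsto_atTop.1 h 1).exists
  obtain ⟨t, ht⟩ := h2
  rw [FF_of_mem hx] at ht
  omega

theorem exists_nbr_of_YY {x : X} (h : YY G H κ q x) : ∃ y, G.Adj x y ∧ y ∉ H := by
  by_contra hn
  push Not at hn
  obtain ⟨t, ht⟩ := (tendsto_atTop.1 h 1).exists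
  rw [FF_of_isolated hn] at ht
  omega

theorem meas_YY (hH : MeasurableSet H) (hκ : Measurable κ) : MeasurableSet {x | YY G H κ q x} := by
  have : {x | YY G H κ q x} = ⋂ b : ℕ, ⋃ t : ℕ, {x | b ≤ FF G H κ q t x} := by
    ext x
    simp only [YY, mem_ofPred_eq, mem_iInter, mem_iUnion]
    constructor
    · intro h b
      exact (tendsto_atTop.1 h b).exists
    · intro h
      refine tendsto_atTop_atTop.2 fun b => ?_
      obtain ⟨t, ht⟩ := h b
      exact ⟨t, fun s hs => ht.trans (FF_mono x hs)⟩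
  rw [this]
  exact MeasurableSet.iInter fun b => MeasurableSet.iUnion fun t =>
    measurableSet_le measurable_const (meas_FF hH hκ t)

/-- the limit export -/
noncomputable def lm (G : EG X) (H : Set X) (κ : X → ℕ) (q : ℕ) (L : ℕ → ℝ) (lam : ℕ → ℕ →₀ ℝ)
    (x y : X) : ℝ :=
  limUnder atTop (fun n => cc lam n (fun t => mm G H κ q L t x y))

/-- convergence at `x` -/
def Good (G : EG X) (H : Set X) (κ : X → ℕ) (q : ℕ) (L : ℕ → ℝ) (lam : ℕ → ℕ →₀ ℝ)
    (x : X) : Prop :=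
  (∀ y, G.Adj x y → Tendsto (fun n => cc lam n (fun t => mm G H κ q L t x y)) atTop
    (𝓝 (lm G H κ q L lam x y))) ∧
  (YY G H κ q x → Tendsto (fun t => (FF G H κ q t x : ℝ) / L t) atTop atTop)

/-- a predicate equivalent to `1/2 < lm x y`, evidently measurable -/
def big (G : EG X) (H : Set X) (κ : X → ℕ) (q : ℕ) (L : ℕ → ℝ) (lam : ℕ → ℕ →₀ ℝ)
    (x y : X) : Prop :=
  ∃ k N : ℕ, ∀ n : ℕ, N ≤ n → 1 / 2 + 1 / ((k : ℝ) + 1) ≤ cc lam n (fun t => mm G H κ q L t x y)

theorem meas_cc (hH : MeasurableSet H) (hκ : Measurable κ) (n : ℕ) :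
    Measurable (fun p : X × X => cc lam n (fun t => mm G H κ q L t p.1 p.2)) := by
  unfold cc Finsupp.sum
  exact Finset.measurable_sum _ fun t _ => (meas_mm hH hκ t).const_mul _

theorem meas_big (hH : MeasurableSet H) (hκ : Measurable κ) :
    MeasurableSet {p : X × X | big G H κ q L lam p.1 p.2} := by
  have : {p : X × X | big G H κ q L lam p.1 p.2} = ⋃ k : ℕ, ⋃ N : ℕ, ⋂ n : ℕ, ⋂ _ : N ≤ n,
      {p : X × X | 1 / 2 + 1 / ((k : ℝ) + 1) ≤
        cc lam n (fun t => mm G H κ q L t p.1 p.2)} := by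
    ext p
    simp only [big, mem_ofPred_eq, mem_iInter, mem_iUnion]
  rw [this]
  exact MeasurableSet.iUnion fun k => MeasurableSet.iUnion fun N => MeasurableSet.iInter fun n =>
    MeasurableSet.iInter fun _ => measurableSet_le measurable_const (meas_cc hH hκ n)

theorem big_iff {x y : X} (hx : Good G H κ q L lam x) (hy : G.Adj x y) :
    big G H κ q L lam x y ↔ 1 / 2 < lm G H κ q L lam x y := by
  constructor
  · rintro ⟨k, N, h⟩
    have h1 : 1 / 2 + 1 / ((k : ℝ) + 1) ≤ lm G H κ q L lam x y :=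
      ge_of_tendsto (hx.1 y hy) (eventually_atTop.2 ⟨N, h⟩)
    have h2 : 0 < 1 / ((k : ℝ) + 1) := by positivity
    linarith
  · intro h
    obtain ⟨k, hk⟩ := exists_nat_one_div_lt (sub_pos.2 h)
    have h1 : 1 / 2 + 1 / ((k : ℝ) + 1) < lm G H κ q L lam x y := by linarith
    obtain ⟨N, hN⟩ := eventually_atTop.1 ((hx.1 y hy).eventually (lt_mem_nhds h1))
    exact ⟨k, N, fun n hn => (hN n hn).le⟩

section

variable (h0 : ∀ n t, 0 ≤ lam n t) (ht : ∀ n t, t < n → lam n t = 0)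
  (h1 : ∀ n, ((lam n).sum fun _ a => a) = 1)
include h0 ht h1

theorem lm_nonneg {x y : X} (hx : Good G H κ q L lam x) (hy : G.Adj x y) :
    0 ≤ lm G H κ q L lam x y :=
  ge_of_tendsto (hx.1 y hy) (cc_ge h0 ht h1 (Eventually.of_forall fun t => mm_nonneg t x y))

omit h0 ht in
theorem lm_add {x y : X} (hx : Good G H κ q L lam x) (hy' : Good G H κ q L lam y)
    (hy : G.Adj x y) : lm G H κ q L lam x y + lm G H κ q L lam y x = 1 := by
  have e1 := (hx.1 y hy).add (hy'.1 x (G.adj_symm hy))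
  have e2 : (fun n => cc lam n (fun t => mm G H κ q L t x y) +
      cc lam n (fun t => mm G H κ q L t y x)) = fun _ => 1 := by
    funext n
    rw [← cc_add]
    have : (fun t => mm G H κ q L t x y + mm G H κ q L t y x) = fun _ => 1 := by
      funext t
      exact mm_add t x y
    rw [this, cc_const h1]
  rw [e2] at e1
  exact tendsto_nhds_unique e1 tendsto_const_nhds

theorem lm_out (hκ : ∀ x y, G.Adj x y → κ x ≠ κ y) (hL : ∀ t, 1 ≤ L t)
    (hL' : Tendsto L atTop atTop) {x y : X} (hx : Good G H κ q L lam x) (hy : G.Adj x y)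
    (hn : ¬ YY G H κ q y) : lm G H κ q L lam x y = 1 / 2 :=
  tendsto_nhds_unique (hx.1 y hy) (cc_tendsto h0 ht h1 (mm_out hκ hL hL' hy hn))

theorem lm_few (hκ : ∀ x y, G.Adj x y → κ x ≠ κ y) (hL : ∀ t, 1 ≤ L t) {x y : X}
    (hx : Good G H κ q L lam x) (hY : YY G H κ q x) (hy : G.Adj x y) (hyH : y ∉ H)
    (hd : G.cnt x (fun y => y ∉ H) ≤ 2) : lm G H κ q L lam x y = 0 := by
  have h3 : ∀ᶠ t in atTop, 3 ≤ (FF G H κ q t x : ℝ) / L t := tendsto_atTop.1 (hx.2 hY) 3
  have h4 : Tendsto (fun t => mm G H κ q L t x y) atTop (𝓝 0) := by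
    apply tendsto_const_nhds.congr'
    filter_upwards [h3] with t ht'
    exact (mm_few hκ hL t hy hyH hd ht').symm
  exact tendsto_nhds_unique (hx.1 y hy) (cc_tendsto h0 ht h1 h4)

theorem lm_pair (hκ : ∀ x y, G.Adj x y → κ x ≠ κ y) (hL : ∀ t, 1 ≤ L t)
    (hL' : Tendsto L atTop atTop) {x y z : X} (hx : Good G H κ q L lam x)
    (hy : G.Adj x y) (hz : G.Adj x z) (hyz : y ≠ z) :
    lm G H κ q L lam x y + lm G H κ q L lam x z ≤ 1 := by
  apply le_of_forall_pos_le_add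
  intro ε hε
  have h3 : ∀ᶠ t in atTop, 1 / ε ≤ L t := tendsto_atTop.1 hL' _
  have h4 : ∀ᶠ t in atTop, mm G H κ q L t x y + mm G H κ q L t x z ≤ 1 + ε := by
    filter_upwards [h3] with t ht'
    have h5 := mm_pair (H := H) (q := q) hκ hL t hy hz hyz
    have h6 : 1 / L t ≤ ε := by
      rw [div_le_iff₀ (lt_of_lt_of_le one_pos (hL t))]
      rwa [div_le_iff₀' hε] at ht'
    linarith
  have h5 := cc_le h0 ht h1 h4
  have h6 := (hx.1 y hy).add (hx.1 z hz)
  refine le_of_tendsto h6 (h5.mono fun n hn => ?_)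
  rw [← cc_add]
  exact hn

theorem lm_triple (hκ : ∀ x y, G.Adj x y → κ x ≠ κ y) (hL : ∀ t, 1 ≤ L t)
    (hL' : Tendsto L atTop atTop) {x y z w : X} (hx : Good G H κ q L lam x)
    (hY : YY G H κ q x)
    (hy : G.Adj x y) (hz : G.Adj x z) (hw : G.Adj x w) (hyz : y ≠ z) (hyw : y ≠ w)
    (hzw : z ≠ w) :
    lm G H κ q L lam x y + lm G H κ q L lam x z + lm G H κ q L lam x w ≤ 1 := by
  apply le_of_forall_pos_le_add
  intro ε hε
  have h3 : ∀ᶠ t in atTop, 1 / ε ≤ L t := tendsto_atTop.1 hL' _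
  have h3' : ∀ᶠ t in atTop, 3 ≤ (FF G H κ q t x : ℝ) / L t := tendsto_atTop.1 (hx.2 hY) 3
  have h4 : ∀ᶠ t in atTop, (mm G H κ q L t x y + mm G H κ q L t x z) + mm G H κ q L t x w
      ≤ 1 + ε := by
    filter_upwards [h3, h3'] with t ht' ht''
    have h5 := mm_triple (H := H) (q := q) hκ hL t hy hz hw hyz hyw hzw ht''
    have h6 : 1 / L t ≤ ε := by
      rw [div_le_iff₀ (lt_of_lt_of_le one_pos (hL t))]
      rwa [div_le_iff₀' hε] at ht'
    linarith
  have h5 := cc_le h0 ht h1 h4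
  have h6 := ((hx.1 y hy).add (hx.1 z hz)).add (hx.1 w hw)
  refine le_of_tendsto h6 (h5.mono fun n hn => ?_)
  rw [← cc_add, ← cc_add]
  exact hn

end

end UC
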