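import Pool.Agent.UC.Stmts

/-!
# Module Lt: a normalising sequence
-/

open MeasureTheory Filter Topology Set

namespace UC

theorem lt_ (X : Type*) [MeasurableSpace X] : Stmt_Lt X := by
  intro μ _ F hF hmono
  let A : Set X := ⋂ n : ℕ, ⋃ t : ℕ, {x | n ≤ F t x}
  have hA : MeasurableSet A :=
    MeasurableSet.iInter fun n => MeasurableSet.iUnion fun t =>
      measurableSet_le measurable_const (hF t)
  let B : ℕ → ℕ → Set X := fun k t => A ∩ {x | F t x < k ^ 2}
  have hB : ∀ k t, MeasurableSet (B k t) := fun k t =>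
    hA.inter (measurableSet_lt (hF t) measurable_const)
  have hanti : ∀ k, Antitone (B k) := by
    intro k s t hst x hx
    exact ⟨hx.1, lt_of_le_of_lt (hmono x hst) hx.2⟩
  have hempty : ∀ k, ⋂ t, B k t = ∅ := by
    intro k
    ext x
    simp only [mem_iInter, mem_empty_iff_false, iff_false]
    intro h
    have h1 : x ∈ A := (h 0).1
    obtain ⟨t, ht⟩ := mem_iUnion.mp (mem_iInter.mp h1 (k ^ 2))
    have ht' : k ^ 2 ≤ F t x := ht
    have h2 : F t x < k ^ 2 := (h t).2
    omega
  have hlim : ∀ k, Tendsto (fun t => μ (B k t)) atTop (𝓝 0) := by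
    intro k
    have := tendsto_measure_iInter_atTop (μ := μ) (s := B k)
      (fun t => (hB k t).nullMeasurableSet) (hanti k) ⟨0, measure_ne_top _ _⟩
    rw [hempty, measure_empty] at this
    exact this
  have hev : ∀ k : ℕ, ∀ᶠ t in atTop, μ (B k t) ≤ (1 / 2 : ENNReal) ^ k := by
    intro k
    refine (hlim k).eventually (ge_mem_nhds ?_)
    exact pos_iff_ne_zero.mpr (pow_ne_zero _ (by simp))
  obtain ⟨T, hT, hTB⟩ := Filter.extraction_forall_of_eventually hev
  have hBC : ∀ᵐ x ∂μ, ∀ᶠ k in atTop, x ∉ B k (T k) := by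
    apply ae_eventually_notMem
    refine ne_top_of_le_ne_top ?_ (ENNReal.tsum_le_tsum hTB)
    rw [ENNReal.tsum_geometric]
    simp
  let g : ℕ → ℕ := fun t => Nat.findGreatest (fun k => T k ≤ t) t
  have hg1 : ∀ k t, T k ≤ t → k ≤ g t := fun k t h =>
    Nat.le_findGreatest ((hT.id_le k).trans h) h
  have hg2 : ∀ t, T 0 ≤ t → T (g t) ≤ t := fun t h =>
    Nat.findGreatest_spec (P := fun k => T k ≤ t) (Nat.zero_le t) h
  have hg3 : Tendsto g atTop atTop := by
    rw [tendsto_atTop]
    intro k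
    filter_upwards [eventually_ge_atTop (T k)] with t ht using hg1 k t ht
  refine ⟨fun t => max 1 (g t : ℝ), fun t => le_max_left _ _, ?_, ?_⟩
  · exact tendsto_atTop_mono (fun t => le_max_right _ _) (tendsto_natCast_atTop_atTop.comp hg3)
  · filter_upwards [hBC] with x hx hFx
    have hxA : x ∈ A := by
      refine mem_iInter.mpr fun n => ?_
      obtain ⟨t, ht⟩ := (hFx.eventually (eventually_ge_atTop n)).exists
      exact mem_iUnion.mpr ⟨t, ht⟩
    have key : ∀ᶠ t in atTop, (g t : ℝ) ≤ (F t x : ℝ) / max 1 (g t : ℝ) := by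
      have e1 : ∀ᶠ t in atTop, x ∉ B (g t) (T (g t)) := hg3.eventually hx
      filter_upwards [e1, eventually_ge_atTop (T 0), hg3.eventually (eventually_ge_atTop 1)]
        with t h1 h2 h3
      have h4 : (1 : ℝ) ≤ g t := by exact_mod_cast h3
      rw [max_eq_right h4, le_div_iff₀ (by linarith)]
      have h5 : g t ^ 2 ≤ F (T (g t)) x := by
        by_contra hcon
        exact h1 ⟨hxA, not_le.mp hcon⟩
      have h6 : g t ^ 2 ≤ F t x := h5.trans (hmono x (hg2 t h2))
      have h7 : ((g t ^ 2 : ℕ) : ℝ) ≤ F t x := by exact_mod_cast h6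
      push_cast at h7
      nlinarith
    exact tendsto_atTop_mono' _ key (tendsto_natCast_atTop_atTop.comp hg3)

end UC
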