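import Pool.Agent.UC.Stmts

/-!
# Module Max: maximal structures exist
-/

open MeasureTheory Filter Topology Set

namespace UC

section

variable {X : Type*} [MeasurableSpace X] (G : EG X)

/-- measurable structures -/
structure MS where
  H : Set X
  f : X → X
  mH : MeasurableSet H
  mf : Measurable f
  str : G.Str H f

variable {G}

/-- extension of structures -/
def MS.le (s t : MS G) : Prop := s.H ⊆ t.H ∧ ∀ x ∈ s.H, t.f x = s.f x

theorem MS.le_refl (s : MS G) : s.le s := ⟨Subset.rfl, fun _ _ => rfl⟩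

theorem MS.le_trans {s t u : MS G} (h : s.le t) (h' : t.le u) : s.le u :=
  ⟨h.1.trans h'.1, fun x hx => (h'.2 x (h.1 hx)).trans (h.2 x hx)⟩

/-- almost optimal extensions -/
theorem MS.exists_next (μ : Measure X) [IsFiniteMeasure μ] (s : MS G) (n : ℕ) :
    ∃ t : MS G, s.le t ∧ ∀ u : MS G, s.le u → μ u.H ≤ μ t.H + (1 / 2 : ENNReal) ^ n := by
  let a : ENNReal := ⨆ u : {u : MS G // s.le u}, μ u.1.H
  have ha : ∀ u : MS G, s.le u → μ u.H ≤ a := fun u hu =>
    le_iSup (fun u : {u : MS G // s.le u} => μ u.1.H) ⟨u, hu⟩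
  have ha' : a ≠ ⊤ := by
    refine ne_top_of_le_ne_top (measure_ne_top μ univ) ?_
    exact iSup_le fun u => measure_mono (subset_univ _)
  have hε : (1 / 2 : ENNReal) ^ n ≠ 0 := pow_ne_zero _ (by simp)
  by_cases h0 : a = 0
  · refine ⟨s, s.le_refl, fun u hu => ?_⟩
    have := ha u hu
    rw [h0] at this
    exact this.trans zero_le
  · have h1 : a - (1 / 2 : ENNReal) ^ n < a := ENNReal.sub_lt_self ha' h0 hε
    obtain ⟨t, ht⟩ := lt_iSup_iff.mp h1
    refine ⟨t.1, t.2, fun u hu => (ha u hu).trans ?_⟩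
    calc a ≤ (a - (1 / 2 : ENNReal) ^ n) + (1 / 2 : ENNReal) ^ n := le_tsub_add
      _ ≤ _ := by gcongr

end

theorem max_ (X : Type*) [MeasurableSpace X] [StandardBorelSpace X] : Stmt_Max X := by
  intro G μ _
  classical
  choose next hnext1 hnext2 using fun (s : MS G) (n : ℕ) => s.exists_next μ n
  let s0 : MS G := ⟨∅, id, MeasurableSet.empty, measurable_id,
    ⟨fun x hx => hx.elim, fun x hx => hx.elim, fun x hx => hx.elim, fun x hx => hx.elim⟩⟩
  let s : ℕ → MS G := fun n => Nat.rec s0 (fun n t => next t n) n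
  have hs : ∀ n, s (n + 1) = next (s n) n := fun n => rfl
  have hle1 : ∀ n, (s n).le (s (n + 1)) := fun n => by rw [hs]; exact hnext1 _ _
  have hle : ∀ m n, m ≤ n → (s m).le (s n) := by
    intro m n h
    induction n, h using Nat.le_induction with
    | base => exact (s m).le_refl
    | succ n _ ih => exact MS.le_trans ih (hle1 n)
  let H : Set X := ⋃ n, (s n).H
  have mH : MeasurableSet H := MeasurableSet.iUnion fun n => (s n).mH
  have hex : ∀ x, ∃ n, x ∈ (s n).H ∨ x ∉ H := by
    intro x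
    by_cases hx : x ∈ H
    · obtain ⟨n, hn⟩ := mem_iUnion.mp hx
      exact ⟨n, Or.inl hn⟩
    · exact ⟨0, Or.inr hx⟩
  let f : X → X := fun x => (s (Nat.find (hex x))).f x
  have mf : Measurable f :=
    Measurable.find (f := fun n => (s n).f) (p := fun n x => x ∈ (s n).H ∨ x ∉ H)
      (fun n => (s n).mf) (fun n => (s n).mH.union mH.compl) hex
  have hf : ∀ n, ∀ x ∈ (s n).H, f x = (s n).f x := by
    intro n x hx
    have hxH : x ∈ H := mem_iUnion.mpr ⟨n, hx⟩
    have h1 : x ∈ (s (Nat.find (hex x))).H := by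
      rcases Nat.find_spec (hex x) with h | h
      · exact h
      · exact absurd hxH h
    have h2 : Nat.find (hex x) ≤ n := Nat.find_min' (hex x) (Or.inl hx)
    exact ((hle _ _ h2).2 x h1).symm
  refine ⟨H, f, mH, mf, ?_, ?_⟩
  · refine ⟨?_, ?_, ?_, ?_⟩
    · intro x hx
      obtain ⟨n, hn⟩ := mem_iUnion.mp hx
      exact (s n).str.deg x hn
    · intro x hx
      obtain ⟨n, hn⟩ := mem_iUnion.mp hx
      rw [hf n x hn]
      exact (s n).str.par x hn
    · intro x hx z hz hzf
      obtain ⟨n, hn⟩ := mem_iUnion.mp hx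
      rw [hf n x hn] at hzf
      obtain ⟨h1, h2⟩ := (s n).str.child x hn z hz hzf
      exact ⟨mem_iUnion.mpr ⟨n, h1⟩, by rw [hf n z h1]; exact h2⟩
    · intro x hx hfx
      obtain ⟨m, hm⟩ := mem_iUnion.mp hx
      obtain ⟨m', hm'⟩ := mem_iUnion.mp hfx
      have h1 : x ∈ (s (max m m')).H := (hle m _ (le_max_left _ _)).1 hm
      have h2 : f x ∈ (s (max m m')).H := (hle m' _ (le_max_right _ _)).1 hm'
      rw [hf _ _ h2, hf _ _ h1]
      rw [hf _ _ h1] at h2
      exact (s (max m m')).str.noback x h1 h2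
  · intro H' f' mH' mf' hstr' hsub hff'
    let t : MS G := ⟨H', f', mH', mf', hstr'⟩
    have h1 : ∀ n, (s n).le t := by
      intro n
      refine ⟨fun x hx => hsub (mem_iUnion.mpr ⟨n, hx⟩), fun x hx => ?_⟩
      show f' x = _
      rw [hff' x (mem_iUnion.mpr ⟨n, hx⟩), hf n x hx]
    have h2 : ∀ n, μ H' ≤ μ H + (1 / 2 : ENNReal) ^ n := by
      intro n
      refine (hnext2 (s n) n t (h1 n)).trans ?_
      gcongr
      intro x hx
      exact mem_iUnion.mpr ⟨n + 1, hx⟩
    have h3 : μ H' ≤ μ H := by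
      have hlim : Tendsto (fun n : ℕ => μ H + (1 / 2 : ENNReal) ^ n) atTop (𝓝 (μ H + 0)) := by
        refine Tendsto.const_add _ ?_
        exact ENNReal.tendsto_pow_atTop_nhds_zero_of_lt_one (by simp)
      rw [add_zero] at hlim
      exact ge_of_tendsto' hlim h2
    rw [measure_sdiff hsub mH.nullMeasurableSet (measure_ne_top _ _)]
    exact tsub_eq_zero_of_le h3

end UC
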