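import Pool.Agent.UC.Basic
import Pool.Agent.UC.Stmts

/-! The window rule (module Win of squad UC, MP_99e1f5_lc). -/

open MeasureTheory Filter Topology Set

namespace UC

namespace WinAux

/-- parity of the ranks in a finite set with an injective real label -/
theorem half_rank (S : Finset ℕ) (g : ℕ → ℝ) (hg : Set.InjOn g S) (ε : ℕ) (hε : ε < 2) :
    S.card / 2 ≤ (S.filter (fun i => (S.filter (fun j => g j < g i)).card % 2 = ε)).card := by
  classical
  let rk : ℕ → ℕ := fun i => (S.filter (fun j => g j < g i)).card
  have hlt : ∀ i ∈ S, ∀ j ∈ S, g i < g j → rk i < rk j := by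
    intro i hi j hj hij
    apply Finset.card_lt_card
    rw [Finset.ssubset_iff_of_subset]
    · exact ⟨i, by simp [hi, hij], by simp⟩
    · intro k hk
      simp only [Finset.mem_filter] at hk ⊢
      exact ⟨hk.1, hk.2.trans hij⟩
  have hinj : Set.InjOn rk S := by
    intro i hi j hj hij
    by_contra hne
    have hgne : g i ≠ g j := fun h => hne (hg hi hj h)
    rcases lt_or_gt_of_ne hgne with h | h
    · exact absurd hij (hlt i hi j hj h).ne
    · exact absurd hij (hlt j hj i hi h).ne'
  have hmem : ∀ i ∈ S, rk i < S.card := by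
    intro i hi
    apply Finset.card_lt_card
    rw [Finset.ssubset_iff_of_subset (Finset.filter_subset _ _)]
    exact ⟨i, hi, by simp⟩
  have himg : S.image rk = Finset.range S.card := by
    apply Finset.eq_of_subset_of_card_le
    · intro k hk
      obtain ⟨i, hi, rfl⟩ := Finset.mem_image.1 hk
      exact Finset.mem_range.2 (hmem i hi)
    · rw [Finset.card_image_of_injOn hinj, Finset.card_range]
  have hex : ∀ k, k < S.card → ∃ i ∈ S, rk i = k := by
    intro k hk
    have : k ∈ S.image rk := by rw [himg]; exact Finset.mem_range.2 hk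
    exact Finset.mem_image.1 this
  choose! h hS hrk using hex
  calc S.card / 2 = (Finset.range (S.card / 2)).card := (Finset.card_range _).symm
    _ ≤ _ := by
      apply Finset.card_le_card_of_injOn (fun j => h (2 * j + ε))
      · intro j hj
        have hj' : j < S.card / 2 := by simpa using hj
        have h1 : 2 * j + ε < S.card := by omega
        simp only [Finset.coe_filter, Set.mem_ofPred_eq]
        refine ⟨hS _ h1, ?_⟩
        have := hrk _ h1
        change rk (h (2 * j + ε)) % 2 = ε
        rw [this]; omega
      · intro j hj k hk hjk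
        have hj' : j < S.card / 2 := by simpa using hj
        have hk' : k < S.card / 2 := by simpa using hk
        have h1 : 2 * j + ε < S.card := by omega
        have h2 : 2 * k + ε < S.card := by omega
        have h3 := hrk _ h1
        have h4 := hrk _ h2
        simp only at hjk
        rw [hjk, h4] at h3
        omega

/-- a bounded sequence of naturals with distinct consecutive values has a strict local maximum -/
theorem exists_peak (a : ℕ → ℕ) (q : ℕ) (hq : ∀ n, a n < q) (hne : ∀ n, a n ≠ a (n + 1)) :
    ∃ m, a m < a (m + 1) ∧ a (m + 2) < a (m + 1) := by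
  by_contra hcon
  push Not at hcon
  by_cases h : ∃ m, a m < a (m + 1)
  · obtain ⟨m, hm⟩ := h
    have key : ∀ k, a (m + k) < a (m + k + 1) ∧ k ≤ a (m + k) := by
      intro k
      induction k with
      | zero => exact ⟨hm, Nat.zero_le _⟩
      | succ k ih =>
        have h1 := hcon (m + k) ih.1
        have h2 := hne (m + k + 1)
        have e1 : m + (k + 1) = m + k + 1 := by ring
        rw [e1]
        refine ⟨lt_of_le_of_ne ?_ h2, by omega⟩
        exact h1
    have := (key q).2
    have := hq (m + q)
    omega
  · push Not at h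
    have key : ∀ k, a k + k ≤ a 0 := by
      intro k
      induction k with
      | zero => simp
      | succ k ih =>
        have h1 := h k
        have h2 := hne k
        omega
    have := key (a 0 + 1)
    omega

theorem cnt_eq_le_one {X : Type*} [MeasurableSpace X] (G : EG X) (x y : X) :
    G.cnt x (fun z => z = y) ≤ 1 := by
  classical
  unfold EG.cnt
  rw [Finset.card_le_one]
  intro i hi j hj
  simp only [Finset.mem_filter, Finset.mem_range] at hi hj
  exact G.inj x i j hi.1 hj.1 (hi.2.trans hj.2.symm)

end WinAux

open WinAux in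
/-- M6 -/
theorem win (X : Type*) [MeasurableSpace X] [StandardBorelSpace X] : Stmt_Win X := by
  classical
  intro G q κ hκ hκq hκp Z f hZ hf hdg hadj hfZ hch hnb
  let e : X → ℝ := embeddingReal X
  have he : Measurable e := measurable_embeddingReal X
  have hei : Function.Injective e := (measurableEmbedding_embeddingReal X).injective
  let R : Set X := {x | κ x < κ (f x) ∧ κ (f (f x)) < κ (f x)}
  have hR : MeasurableSet R := (measurableSet_lt hκ (hκ.comp hf)).inter
    (measurableSet_lt (hκ.comp (hf.comp hf)) (hκ.comp hf))
  let p : X → ℕ → Prop := fun x k => f^[k + 1] x ∈ R ∨ ∀ m, f^[m + 1] x ∉ R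
  have hp : ∀ x, ∃ k, p x k := by
    intro x
    by_cases h : ∃ m, f^[m + 1] x ∈ R
    · obtain ⟨m, hm⟩ := h
      exact ⟨m, Or.inl hm⟩
    · push Not at h
      exact ⟨0, Or.inr h⟩
  have hit : ∀ k, Measurable (f^[k]) := fun k => hf.iterate k
  have hpm : ∀ k, MeasurableSet {x | p x k} := by
    intro k
    have h1 : {x | p x k} = (f^[k + 1]) ⁻¹' R ∪ ⋂ m, ((f^[m + 1]) ⁻¹' R)ᶜ := by
      ext x
      simp [p]
    rw [h1]
    exact (hit _ hR).union (MeasurableSet.iInter fun m => (hit _ hR).compl)
  let N : X → ℕ := fun x => Nat.find (hp x)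
  have hN : Measurable N := measurable_find hp hpm
  let σ : X → ℕ := fun w => G.cnt (f w) (fun y => y ≠ f (f w) ∧ e y < e w)
  have hσ : Measurable σ := by
    refine G.measurable_cnt_prop f hf (fun w y => y ≠ f (f w) ∧ e y < e w) (fun i => ?_)
    have h1 : {w | G.nb i (f w) ≠ f (f w) ∧ e (G.nb i (f w)) < e w} =
        {w | e (G.nb i (f w)) = e (f (f w))}ᶜ ∩ {w | e (G.nb i (f w)) < e w} := by
      ext w
      simp [hei.eq_iff]
    rw [h1]
    have m1 : Measurable (fun w => e (G.nb i (f w))) := he.comp ((G.nb_meas i).comp hf)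
    exact (measurableSet_eq_fun m1 (he.comp (hf.comp hf))).compl.inter (measurableSet_lt m1 he)
  let c : X → Bool := fun x => decide ((σ (f^[N x] x) + N x) % 2 = 1)
  have hc : Measurable c := by
    refine measurable_to_bool ?_
    have h1 : c ⁻¹' {true} = ⋃ k, {x | N x = k} ∩ {x | (σ (f^[k] x) + k) % 2 = 1} := by
      ext x
      simp [c]
    rw [h1]
    refine MeasurableSet.iUnion fun k => ?_
    refine (hN (measurableSet_singleton k)).inter ?_
    have m1 : Measurable (fun x => (σ (f^[k] x) + k) % 2) :=
      (measurable_of_countable (fun n : ℕ => (n + k) % 2)).comp (hσ.comp (hit k))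
    exact m1 (measurableSet_singleton 1)
  -- orbits
  have horb : ∀ k, ∀ x ∈ Z, f^[k] x ∈ Z := by
    intro k
    induction k with
    | zero => intro x hx; exact hx
    | succ k ih => intro x hx; rw [Function.iterate_succ_apply]; exact ih _ (hfZ x hx)
  have hhit : ∀ x ∈ Z, ∃ m, f^[m + 1] x ∈ R := by
    intro x hx
    obtain ⟨m, h1, h2⟩ := exists_peak (fun n => κ (f^[n + 1] x)) q (fun n => hκq _) (fun n => by
      have h := hκp _ _ (hadj _ (horb (n + 1) x hx))
      rw [← Function.iterate_succ_apply' f (n + 1) x] at h
      exact h)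
    refine ⟨m, ?_, ?_⟩
    · rw [← Function.iterate_succ_apply' f (m + 1) x]; exact h1
    · rw [← Function.iterate_succ_apply' f (m + 1) x,
        ← Function.iterate_succ_apply' f (m + 1 + 1) x]
      exact h2
  have hpiff : ∀ x ∈ Z, ∀ k, p x k ↔ f^[k + 1] x ∈ R := by
    intro x hx k
    constructor
    · rintro (h | h)
      · exact h
      · obtain ⟨m, hm⟩ := hhit x hx
        exact absurd hm (h m)
    · exact Or.inl
  have base : ∀ z ∈ Z, f z ∈ R → N z = 0 := by
    intro z hz hfz
    rw [Nat.find_eq_zero]
    exact Or.inl hfz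
  have step : ∀ z ∈ Z, f z ∉ R → N z = N (f z) + 1 := by
    intro z hz hfz
    rw [Nat.find_eq_iff]
    have hfzZ := hfZ z hz
    constructor
    · rw [hpiff z hz]
      have := Nat.find_spec (hp (f z))
      rw [hpiff _ hfzZ] at this
      exact this
    · intro n hn
      rw [hpiff z hz]
      cases n with
      | zero => exact hfz
      | succ n =>
        have h1 : n < Nat.find (hp (f z)) := by
          have : n + 1 < N (f z) + 1 := hn
          exact Nat.lt_of_succ_lt_succ this
        have h2 := Nat.find_min (hp (f z)) h1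
        rw [hpiff _ hfzZ] at h2
        exact h2
  have cstep : ∀ z ∈ Z, f z ∉ R → c z ≠ c (f z) := by
    intro z hz hfz
    have h1 := step z hz hfz
    have h2 : f^[N z] z = f^[N (f z)] (f z) := by rw [h1, Function.iterate_succ_apply]
    simp only [c]
    rw [h2, h1]
    intro h
    rw [decide_eq_decide] at h
    omega
  refine ⟨c, hc, ?_⟩
  intro x hx
  have hchild : ∀ z, G.Adj x z → z ≠ f x → z ∈ Z ∧ f z = x := hch x hx
  have hcard : G.cnt x (fun z => z = f x) + G.cnt x (fun z => ¬ z = f x) = G.dg x :=
    G.cnt_add_not x _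
  have hone := cnt_eq_le_one G x (f x)
  have hd := hdg x hx
  by_cases hxR : x ∈ R
  · -- `x ∈ R`
    have hfxR : f x ∉ R := by
      intro h
      have h1 := hxR.2
      have h2 := h.1
      omega
    have hpar : c (f x) ≠ c x := (cstep x hx hfxR).symm
    have h1 : G.cnt x (fun y => c y ≠ c x) = G.cnt x (fun y => y = f x) +
        G.cnt x (fun y => y ≠ f x ∧ c y ≠ c x) := by
      rw [← G.cnt_or_disj x _ _ (fun y _ h h' => h'.1 h)]
      refine G.cnt_congr fun y _ => ?_
      constructor
      · intro h
        by_cases hy : y = f x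
        · exact Or.inl hy
        · exact Or.inr ⟨hy, h⟩
      · rintro (rfl | h)
        · exact hpar
        · exact h.2
    have h2 : 1 ≤ G.cnt x (fun y => y = f x) := G.cnt_pos (hadj x hx) rfl
    have h3 : (G.dg x - 1) / 2 ≤ G.cnt x (fun y => y ≠ f x ∧ c y ≠ c x) := by
      let S : Finset ℕ := (Finset.range (G.dg x)).filter (fun i => G.nb i x ≠ f x)
      have hS : S.card = G.cnt x (fun z => ¬ z = f x) := by
        unfold EG.cnt
        simp only [S]
      have hSc : S.card = G.dg x - 1 := by omega
      let g : ℕ → ℝ := fun i => e (G.nb i x)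
      have hg : Set.InjOn g S := by
        intro i hi j hj hij
        simp only [S, Finset.coe_filter, Finset.mem_range, Set.mem_ofPred_eq] at hi hj
        exact G.inj x i j hi.1 hj.1 (hei hij)
      have hrank : ∀ i ∈ S, σ (G.nb i x) = (S.filter (fun j => g j < g i)).card := by
        intro i hi
        simp only [S, Finset.mem_filter, Finset.mem_range] at hi
        have hfi : f (G.nb i x) = x := (hchild _ (G.adj_nb hi.1) hi.2).2
        simp only [σ, hfi, EG.cnt, S, Finset.filter_filter, g]
      have hcN : ∀ i ∈ S, c (G.nb i x) = decide ((S.filter (fun j => g j < g i)).card % 2 = 1) := by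
        intro i hi
        rw [← hrank i hi]
        simp only [S, Finset.mem_filter, Finset.mem_range] at hi
        have hch' := hchild _ (G.adj_nb hi.1) hi.2
        have hN0 : N (G.nb i x) = 0 := base _ hch'.1 (by rw [hch'.2]; exact hxR)
        simp only [c, hN0, Function.iterate_zero, id, add_zero]
      obtain ⟨ε, hε, hεc⟩ : ∃ ε < 2, ∀ n : ℕ, n % 2 = ε → decide (n % 2 = 1) ≠ c x := by
        cases hcx : c x
        · exact ⟨1, by norm_num, fun n hn => by simp [hn]⟩
        · exact ⟨0, by norm_num, fun n hn => by simp [hn]⟩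
      have h4 := half_rank S g hg ε hε
      rw [hSc] at h4
      refine h4.trans ?_
      unfold EG.cnt
      apply Finset.card_le_card
      intro i hi
      have hi1 := (Finset.mem_filter.1 hi).1
      have hi2 := (Finset.mem_filter.1 hi).2
      have hi3 := Finset.mem_filter.1 hi1
      have hi4 : c (G.nb i x) ≠ c x := by
        rw [hcN i hi1]
        exact hεc _ hi2
      simp only [Finset.mem_filter]
      exact ⟨hi3.1, hi3.2, hi4⟩
    omega
  · have h1 : G.cnt x (fun z => ¬ z = f x) ≤ G.cnt x (fun y => c y ≠ c x) := by
      refine G.cnt_mono fun y hy hyf => ?_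
      obtain ⟨hyZ, hfy⟩ := hchild y hy hyf
      have := cstep y hyZ (by rw [hfy]; exact hxR)
      rw [hfy] at this
      exact this
    omega

end UC
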