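import Pool.Agent.UC.Key
import Pool.Agent.UC.Col
import Pool.Agent.UC.Cvx
import Pool.Agent.UC.LN
import Pool.Agent.UC.Lt
import Pool.Agent.UC.Max
import Pool.Agent.UC.Win

/-! Assembly. -/

open MeasureTheory Filter Topology Set

namespace UC

variable {X : Type*} [MeasurableSpace X]

/-- the hair colouring: an extension of a colouring outside `H` along `f` -/
theorem exists_hair {H : Set X} {f : X → X} (hH : MeasurableSet H) (hf : Measurable f)
    {b : X → Bool} (hb : Measurable b) :
    ∃ c : X → Bool, Measurable c ∧ (∀ x, x ∉ H → c x = b x) ∧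
      ∀ x, (∃ n, f^[n] x ∉ H) → x ∈ H → c x = !(c (f x)) := by
  classical
  have hp : ∀ x, ∃ n, (f^[n] x ∉ H ∨ ¬ ∃ m, f^[m] x ∉ H) := by
    intro x
    by_cases h : ∃ n, f^[n] x ∉ H
    · exact ⟨_, Or.inl h.choose_spec⟩
    · exact ⟨0, Or.inr h⟩
  obtain ⟨k, hkm, hk1, hk2⟩ : ∃ k : X → ℕ, Measurable k ∧
      (∀ x, f^[k x] x ∉ H ∨ ¬ ∃ m, f^[m] x ∉ H) ∧
      ∀ x n, n < k x → ¬ (f^[n] x ∉ H ∨ ¬ ∃ m, f^[m] x ∉ H) := by
    refine ⟨fun x => Nat.find (hp x), ?_, fun x => Nat.find_spec (hp x),
      fun x n hn => Nat.find_min (hp x) hn⟩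
    apply measurable_find hp
    intro n
    have e : {x | f^[n] x ∉ H ∨ ¬ ∃ m, f^[m] x ∉ H} =
        (f^[n] ⁻¹' H)ᶜ ∪ (⋃ m, (f^[m] ⁻¹' H)ᶜ)ᶜ := by
      ext x
      simp only [mem_ofPred_eq, mem_union, mem_compl_iff, mem_iUnion, mem_preimage]
    rw [e]
    exact (hf.iterate n hH).compl.union
      (MeasurableSet.iUnion fun m => (hf.iterate m hH).compl).compl
  refine ⟨fun x => (b (f^[k x] x)) ^^ (k x).bodd, ?_, ?_, ?_⟩
  · have h1 : Measurable (fun x => b (f^[k x] x)) :=
      hb.comp (meas_apply (f := fun n x => f^[n] x) (fun n => hf.iterate n) hkm)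
    have h2 : Measurable (fun x => (k x).bodd) :=
      (measurable_from_top (f := Nat.bodd)).comp hkm
    have h3 : Measurable (fun p : Bool × Bool => p.1 ^^ p.2) := measurable_of_countable _
    exact h3.comp (h1.prodMk h2)
  · intro x hx
    have : k x = 0 := by
      by_contra h
      exact hk2 x 0 (Nat.pos_of_ne_zero h) (Or.inl hx)
    simp [this]
  · intro x hex hx
    have hex' : ∃ n, f^[n] (f x) ∉ H := by
      obtain ⟨n, hn⟩ := hex
      cases n with
      | zero => exact absurd hx hn
      | succ n => exact ⟨n, by rwa [Function.iterate_succ_apply] at hn⟩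
    have hkx : f^[k x] x ∉ H := (hk1 x).resolve_right (fun h => h hex)
    have hkfx : f^[k (f x)] (f x) ∉ H := (hk1 (f x)).resolve_right (fun h => h hex')
    have key : k x = k (f x) + 1 := by
      apply le_antisymm
      · by_contra hlt
        refine hk2 x (k (f x) + 1) (not_le.1 hlt) (Or.inl ?_)
        rw [Function.iterate_succ_apply]
        exact hkfx
      · by_contra hlt
        have hne : k x ≠ 0 := by
          intro h0
          rw [h0] at hkx
          exact hkx hx
        obtain ⟨m, hm⟩ := Nat.exists_eq_succ_of_ne_zero hne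
        rw [hm, Nat.succ_eq_add_one, Function.iterate_succ_apply] at hkx
        exact hk2 (f x) m (by omega) (Or.inl hkx)
    simp only [key, Function.iterate_succ_apply, Nat.bodd_succ]
    cases b (f^[k (f x)] (f x)) <;> cases (k (f x)).bodd <;> rfl

variable [StandardBorelSpace X]

theorem main_EG (G : EG X) (μ : Measure X) [IsFiniteMeasure μ] (hqi : G.QI μ) :
    ∃ c : X → Bool, Measurable c ∧
      ∀ᵐ x ∂μ, min (G.dg x) 4 ≤ 2 * G.cnt x (fun y => c y ≠ c x) := by
  classical
  obtain ⟨q, κ, hκm, hκq, hκ⟩ := col X G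
  obtain ⟨H, f, hH, hf, hS, hmax⟩ := max_ X G μ
  have hY := ae_not_YY (lt_ X) (cvx X) G μ hqi (q := q) hκm hκ hH hf hS hmax
  let Z : Set X := {x | ∀ n, f^[n] x ∈ H}
  have hZm : MeasurableSet Z := by
    have : Z = ⋂ n, f^[n] ⁻¹' H := by
      ext x
      simp only [Z, mem_ofPred_eq, mem_iInter, mem_preimage]
    rw [this]
    exact MeasurableSet.iInter fun n => hf.iterate n hH
  have hZH : ∀ x ∈ Z, x ∈ H := fun x hx => hx 0
  have hZf : ∀ x ∈ Z, f x ∈ Z := fun x hx n => by
    have := hx (n + 1)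
    rwa [Function.iterate_succ_apply] at this
  obtain ⟨cw, hcwm, hcw⟩ := win X G q κ hκm hκq hκ Z f hZm hf
    (fun x hx => (Nat.le_succ 2).trans (hS.deg x (hZH x hx))) (fun x hx => hS.par x (hZH x hx))
    hZf (fun x hx z hxz hz => by
      obtain ⟨h1, h2⟩ := hS.child x (hZH x hx) z hxz hz
      refine ⟨fun n => ?_, h2⟩
      cases n with
      | zero => exact h1
      | succ n =>
        rw [Function.iterate_succ_apply, h2]
        exact hx n)
    (fun x hx => hS.noback x (hZH x hx) (hZH _ (hZf x hx)))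
  have hbm : Measurable (fun x => decide (cinf G H κ q x)) := by
    apply measurable_to_bool
    have : (fun x => decide (cinf G H κ q x)) ⁻¹' {true} = {x | cinf G H κ q x} := by
      ext x
      simp
    rw [this]
    exact meas_cinf hH hκm
  obtain ⟨ch, hchm, hch1, hch2⟩ := exists_hair hH hf hbm
  let c : X → Bool := fun x => if x ∈ Z then cw x else ch x
  have hcZ : ∀ x ∈ Z, c x = cw x := fun x hx => if_pos hx
  have hcN : ∀ x ∉ Z, c x = ch x := fun x hx => if_neg hx
  have hcH : ∀ x ∉ H, c x = decide (cinf G H κ q x) := fun x hx => by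
    rw [hcN x (fun h => hx (hZH x h)), hch1 x hx]
  have hZ' : ∀ x ∉ Z, ∃ n, f^[n] x ∉ H := by
    intro x hx
    by_contra h
    push Not at h
    exact hx h
  have hnZf : ∀ x ∈ H, x ∉ Z → f x ∉ Z := by
    intro x hx hxZ h
    apply hxZ
    intro n
    cases n with
    | zero => exact hx
    | succ n =>
      rw [Function.iterate_succ_apply]
      exact h n
  have hcHair : ∀ x ∈ H, x ∉ Z → c x = !(c (f x)) := by
    intro x hx hxZ
    rw [hcN x hxZ, hcN _ (hnZf x hx hxZ)]
    exact hch2 x (hZ' x hxZ) hx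
  refine ⟨c, Measurable.ite hZm hcwm hchm, ?_⟩
  obtain ⟨I, hIm, hIae, hIg, hIinv⟩ := G.exists_invariant hqi hY
  filter_upwards [hIae] with x hxI
  by_cases hxZ : x ∈ Z
  · have h1 := hcw x hxZ
    have h2 : G.cnt x (fun y => cw y ≠ cw x) = G.cnt x (fun y => c y ≠ c x) := by
      apply G.cnt_congr
      intro y hy
      have hyZ : y ∈ Z := by
        by_cases hyf : y = f x
        · rw [hyf]
          exact hZf x hxZ
        · obtain ⟨h1, h2⟩ := hS.child x (hZH x hxZ) y hy hyf
          intro n
          cases n with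
          | zero => exact h1
          | succ n =>
            rw [Function.iterate_succ_apply, h2]
            exact hxZ n
      rw [hcZ x hxZ, hcZ y hyZ]
    rw [h2] at h1
    omega
  · by_cases hxH : x ∈ H
    · have h1 : G.cnt x (fun y => c y ≠ c x) = G.dg x := by
        apply G.cnt_true
        intro y hy
        by_cases hyf : y = f x
        · rw [hyf, hcHair x hxH hxZ]
          cases c (f x) <;> simp
        · obtain ⟨h1, h2⟩ := hS.child x hxH y hy hyf
          have hyZ : y ∉ Z := fun h => hxZ (h2 ▸ hZf y h)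
          rw [hcHair y h1 hyZ, h2]
          cases c x <;> simp
      rw [h1]
      omega
    · have h1 := cinf_good hκq hxH (hIg x hxI) (fun y hy => hIg y (hIinv x hxI y hy))
      have h2 : G.cnt x (fun y => y ∈ H ∨ (y ∉ H ∧ ¬ (cinf G H κ q y ↔ cinf G H κ q x))) ≤
          G.cnt x (fun y => c y ≠ c x) := by
        apply G.cnt_mono
        rintro y hy (hyH | ⟨hyH, hne⟩)
        · have hfy : f y = x := by
            by_contra hne
            exact hxH (hS.child y hyH x (G.adj_symm hy) (fun h => hne h.symm)).1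
          have hyZ : y ∉ Z := fun h => hxH (hfy ▸ hZH _ (hZf y h))
          rw [hcHair y hyH hyZ, hfy]
          cases c x <;> simp
        · rw [hcH x hxH, hcH y hyH]
          intro he
          exact hne (decide_eq_decide.1 he)
      have h3 := h1.trans h2
      unfold rr at h3
      omega

omit [StandardBorelSpace X] in
theorem EG.ncard_eq (G : EG X) (x : X) (p : X → Prop) :
    {y | G.Adj x y ∧ p y}.ncard = G.cnt x p := by
  classical
  have : {y | G.Adj x y ∧ p y} =
      (((Finset.range (G.dg x)).filter (fun i => p (G.nb i x))).image (fun i => G.nb i x) :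
        Finset X) := by
    ext y
    simp only [mem_ofPred_eq, Finset.coe_image, mem_image, Finset.coe_filter, Finset.mem_range]
    constructor
    · rintro ⟨⟨i, hi, rfl⟩, hp⟩
      exact ⟨i, ⟨hi, hp⟩, rfl⟩
    · rintro ⟨i, ⟨hi, hp⟩, rfl⟩
      exact ⟨⟨i, hi, rfl⟩, hp⟩
  rw [this, Set.ncard_coe_finset, Finset.card_image_of_injOn]
  · unfold EG.cnt
    rfl
  · intro i hi j hj hij
    simp only [Finset.coe_filter, Finset.mem_range, mem_ofPred_eq] at hi hj
    exact G.inj x i j hi.1 hj.1 hij

/-- Every measured graph of bounded degree has a measurable 2-colouring such that almost every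
vertex has at least `min (deg x) 4 / 2` neighbours of the opposite colour. -/
theorem main (G : SimpleGraph X) (hG : MeasurableSet {p : X × X | G.Adj p.1 p.2}) (D : ℕ)
    (hD : ∀ x, (G.neighborSet x).Finite ∧ (G.neighborSet x).ncard ≤ D)
    (μ : Measure X) [IsFiniteMeasure μ]
    (hqi : ∀ N : Set X, MeasurableSet N → μ N = 0 → μ {x | ∃ y ∈ N, G.Reachable x y} = 0) :
    ∃ c : X → Bool, Measurable c ∧ ∀ᵐ x ∂μ,
      min (G.neighborSet x).ncard 4 ≤ 2 * {y | G.Adj x y ∧ c y ≠ c x}.ncard := by
  obtain ⟨E, hE⟩ := ln X G hG D hD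
  have hqi' : E.QI μ := by
    intro N hN
    obtain ⟨N', hN', hN'm, hN'0⟩ := exists_measurable_superset_of_null hN
    refine measure_mono_null ?_ (hqi N' hN'm hN'0)
    rintro x ⟨y, hy, hxy⟩
    exact ⟨y, hN' hy, ((hE x y).2 hxy).reachable⟩
  obtain ⟨c, hcm, hc⟩ := main_EG E μ hqi'
  refine ⟨c, hcm, hc.mono fun x hx => ?_⟩
  have e1 : (G.neighborSet x).ncard = E.dg x := by
    rw [← E.cnt_true x (p := fun _ => True) (fun _ _ => trivial), ← E.ncard_eq]
    congr 1
    ext y
    simp only [SimpleGraph.mem_neighborSet, mem_ofPred_eq, and_true]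
    exact hE x y
  have e2 : {y | G.Adj x y ∧ c y ≠ c x}.ncard = E.cnt x (fun y => c y ≠ c x) := by
    rw [← E.ncard_eq]
    congr 1
    ext y
    simp only [mem_ofPred_eq]
    rw [hE x y]
  rw [e1, e2]
  exact hx

end UC
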